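import Pool.Agent.V5helper27.BM.Stm2
import Pool.Agent.Q90.SM.Eqv
import Pool.Agent.Q90.SM.Ext
import Pool.Agent.Q90.SM.Gavg
import Pool.Agent.Q90.SM.Gauss

set_option autoImplicit false

/-! # Project BM: assembly with the library -/

open Complex Filter Topology Set Metric MeasureTheory

namespace Pool.Agent.V5helper27.BM

/-- the strong Marshall conjecture -/
def SMa : Prop := ∀ a : ℝ, 0 < a → a < 1 → ∃ C R₀ : ℝ, 1 < R₀ ∧ ∀ R : ℝ, 1 < R → R < R₀ →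
  ∀ ψ h : ℂ → ℂ, IsSig ψ h → marshall a R h ≤ C

/-- for single functions -/
def SMs : Prop := ∀ a : ℝ, 0 < a → a < 1 → ∀ ψ h : ℂ → ℂ, IsSig ψ h → ∃ C R₀ : ℝ, 1 < R₀ ∧
  ∀ R : ℝ, 1 < R → R < R₀ → marshall a R h ≤ C

/-- the uniform bound of the integral means for all complex `t` -/
def Unif : Prop := ∀ c : ℝ, 1 / 4 < c → ∃ K : ℝ, ∀ R : ℝ, 1 < R → ∀ ψ h : ℂ → ℂ, IsSig ψ h → ∀ t : ℂ,
  pmean t R h ≤ K * (R ^ 2 / (R ^ 2 - 1)) ^ (c * ‖t‖ ^ 2)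

theorem lib_q1 : SMa ↔ Q90.SM.Q1 Set.univ 1 := by
  constructor
  · intro h a ha ha1
    obtain ⟨C, R₀, hR₀, hC⟩ := h a ha ha1
    exact ⟨C, R₀, hR₀, fun R hR hR' ψ _ h hS => hC R hR hR' ψ h hS⟩
  · intro h a ha ha1
    obtain ⟨C, R₀, hR₀, hC⟩ := h a ha ha1
    exact ⟨C, R₀, hR₀, fun R hR hR' ψ h hS => hC R hR hR' ψ trivial h hS⟩

theorem lib_q2' {𝓕 : Set (ℂ → ℂ)} (h : Q90.SM.Q1 𝓕 1) (c : ℝ) (hc : 1 / 4 < c) : ∃ K : ℝ, ∀ R : ℝ, 1 < R →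
    ∀ ψ ∈ 𝓕, ∀ h : ℂ → ℂ, IsSig ψ h → ∀ t : ℂ, pmean t R h ≤ K * (R ^ 2 / (R ^ 2 - 1)) ^ (c * ‖t‖ ^ 2) := by
  have h1 := Q90.SM.q12 (Q90.SM.q11 Q90.SM.ext_all h) one_pos
  exact h1 c (by rw [mul_one]; exact hc)

theorem sma_unif (h : SMa) : Unif := by
  intro c hc
  obtain ⟨K, hK⟩ := lib_q2' (lib_q1.1 h) c hc
  exact ⟨K, fun R hR ψ h hS t => hK R hR ψ trivial h hS t⟩

theorem unif_sma (h : Unif) : SMa := by
  rw [lib_q1]
  refine Q90.SM.q21 Q90.SM.ext_all (Q90.SM.gavg Q90.SM.gauss) ?_ one_pos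
  intro c hc
  obtain ⟨K, hK⟩ := h c (by rw [mul_one] at hc; exact hc)
  exact ⟨K, 2, one_lt_two, fun R hR _ ψ _ h hS t _ => hK R hR ψ h hS t⟩

theorem q2_sma (h : Q2) : SMa := by
  rw [lib_q1]
  refine Q90.SM.q21 Q90.SM.ext_all (Q90.SM.gavg Q90.SM.gauss) ?_ one_pos
  intro c hc
  obtain ⟨K, R₀, hR₀, hK⟩ := h c (by rw [mul_one] at hc; exact hc)
  exact ⟨K, R₀, hR₀, fun R hR hR' ψ _ h hS t ht => hK R hR hR' ψ h hS t (by rw [mul_one] at ht; exact ht)⟩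

theorem sma_sms (h : SMa) : SMs := by
  intro a ha ha1 ψ g hS
  obtain ⟨C, R₀, hR₀, hC⟩ := h a ha ha1
  exact ⟨C, R₀, hR₀, fun R hR hR' => hC R hR hR' ψ g hS⟩

theorem log_unique {ψ g g' : ℂ → ℂ} (hS : IsSig ψ g) (hS' : IsSig ψ g') {z : ℂ} (hz : 1 < ‖z‖) : g' z = g z := by
  have S := (Q90.SM.ext_all ψ g hS).1
  have S' := (Q90.SM.ext_all ψ g' hS').1
  have hz0 : z ≠ 0 := by
    intro h0
    rw [h0, norm_zero] at hz
    linarith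
  have hw : z⁻¹ ∈ ball (0:ℂ) 1 := by
    rw [mem_ball_zero_iff, norm_inv]
    exact inv_lt_one_of_one_lt₀ hz
  have h1 := Pool.Agent.W677.Mar.exp_unique (convex_ball (0 : ℂ) 1).isPreconnected S'.dH.continuousOn S.dH.continuousOn
    (fun w hw => by rw [S'.eq w hw, S.eq w hw]) (mem_ball_self one_pos) (by rw [S'.H0, S.H0]) hw
  rw [Pool.Agent.W677.Mar.hat_ne _ _ (inv_ne_zero hz0), Pool.Agent.W677.Mar.hat_ne _ _ (inv_ne_zero hz0), inv_inv] at h1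
  exact h1

theorem norm_circ {R : ℝ} (hR : 0 ≤ R) (θ : ℝ) : ‖circ R θ‖ = R := by
  rw [circ, norm_mul, Complex.norm_exp_ofReal_mul_I, mul_one, Complex.norm_real, Real.norm_of_nonneg hR]

theorem sms_binder (h : SMs) : Binder := by
  intro ψ g hS t ht ε hε
  have h1 : Q90.SM.Q1 {ψ} 1 := by
    intro a ha ha1
    obtain ⟨C, R₀, hR₀, hC⟩ := h a ha ha1 ψ g hS
    refine ⟨C, R₀, hR₀, fun R hR hR' ψ' hψ' g' hS' => ?_⟩
    have hS'' : IsSig ψ g' := by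
      rw [Set.mem_singleton_iff.1 hψ'] at hS'
      exact hS'
    have e : marshall a R g' = marshall a R g := by
      unfold marshall
      congr 1
      apply intervalIntegral.integral_congr
      intro θ _
      have hn : 1 < ‖circ R θ‖ := by
        rw [norm_circ (by linarith)]
        exact hR
      simp only [log_unique hS hS'' hn]
    have h2 := hC R hR hR'
    rw [← e] at h2
    exact h2
  obtain ⟨K, hK⟩ := lib_q2' h1 (1 / 4 + ε / 4) (by linarith)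
  refine ⟨|K|, 2, one_lt_two, fun R hR _ => ?_⟩
  have hR1 : 0 < R ^ 2 - 1 := by nlinarith
  have hq : 1 ≤ R ^ 2 / (R ^ 2 - 1) := by
    rw [le_div_iff₀ hR1]
    linarith
  have h2 := hK R hR ψ (Set.mem_singleton ψ) g hS t
  refine h2.trans ?_
  have h3 : (1 / 4 + ε / 4) * ‖t‖ ^ 2 ≤ ‖t‖ ^ 2 / 4 + ε := by
    have : ‖t‖ ^ 2 ≤ 4 := by
      have := norm_nonneg t
      nlinarith
    nlinarith
  have h4 := Real.rpow_le_rpow_of_exponent_le hq h3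
  have h5 : 0 ≤ (R ^ 2 / (R ^ 2 - 1)) ^ ((1 / 4 + ε / 4) * ‖t‖ ^ 2) := by positivity
  calc K * (R ^ 2 / (R ^ 2 - 1)) ^ ((1 / 4 + ε / 4) * ‖t‖ ^ 2) ≤
        |K| * (R ^ 2 / (R ^ 2 - 1)) ^ ((1 / 4 + ε / 4) * ‖t‖ ^ 2) := mul_le_mul_of_nonneg_right (le_abs_self K) h5
    _ ≤ _ := mul_le_mul_of_nonneg_left h4 (abs_nonneg K)

end Pool.Agent.V5helper27.BM
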