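import Pool.Agent.V5helper27.BM.Gen

set_option autoImplicit false

/-! # Project BM: the equivalent forms, with powers of `R - 1` -/

open Complex Filter Topology Set Metric MeasureTheory

namespace Pool.Agent.V5helper27.BM

/-- upper growth exponent at most `β` -/
def UpR (t : ℂ) (β : ℝ) (h : ℂ → ℂ) : Prop := ∀ ε : ℝ, 0 < ε → ∃ K R₀ : ℝ, 1 < R₀ ∧ ∀ R : ℝ, 1 < R → R < R₀ →
  pmean t R h ≤ K * (R - 1) ^ (-(β + ε))

/-- lower growth exponent at most `β` -/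
def LowR (t : ℂ) (β : ℝ) (h : ℂ → ℂ) : Prop := ∀ ε : ℝ, 0 < ε → ∃ K : ℝ, ∀ R₀ : ℝ, 1 < R₀ → ∃ R : ℝ, 1 < R ∧ R < R₀ ∧
  pmean t R h ≤ K * (R - 1) ^ (-(β + ε))

/-- single functions, lower limit -/
def SMl : Prop := ∀ a : ℝ, 0 < a → a < 1 → ∀ ψ h : ℂ → ℂ, IsSig ψ h → ∃ C : ℝ, ∀ R₀ : ℝ, 1 < R₀ →
  ∃ R : ℝ, 1 < R ∧ R < R₀ ∧ marshall a R h ≤ C

theorem q_pow_le {R e : ℝ} (h1 : 1 < R) (h2 : R < 2) (he : 0 ≤ e) :
    (R ^ 2 / (R ^ 2 - 1)) ^ e ≤ 2 ^ e * (R - 1) ^ (-e) := by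
  have hR1 : 0 < R - 1 := by linarith
  have hR2 : 0 < R ^ 2 - 1 := by nlinarith
  have hq : R ^ 2 / (R ^ 2 - 1) ≤ 2 * (R - 1)⁻¹ := by
    rw [← div_eq_mul_inv, div_le_div_iff₀ hR2 hR1]
    nlinarith
  rw [Real.rpow_neg hR1.le, ← Real.inv_rpow hR1.le, ← Real.mul_rpow (by norm_num) (by positivity)]
  exact Real.rpow_le_rpow (by positivity) hq he

theorem pow_le_q {R e : ℝ} (h1 : 1 < R) (h2 : R < 2) (he : 0 ≤ e) :
    (R - 1) ^ (-e) ≤ 3 ^ e * (R ^ 2 / (R ^ 2 - 1)) ^ e := by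
  have hR1 : 0 < R - 1 := by linarith
  have hR2 : 0 < R ^ 2 - 1 := by nlinarith
  have hq : (R - 1)⁻¹ ≤ 3 * (R ^ 2 / (R ^ 2 - 1)) := by
    rw [← one_div, mul_div_assoc', div_le_div_iff₀ hR1 hR2]
    nlinarith
  rw [Real.rpow_neg hR1.le, ← Real.inv_rpow hR1.le, ← Real.mul_rpow (by norm_num) (by positivity)]
  exact Real.rpow_le_rpow (by positivity) hq he

theorem lowR_low {t : ℂ} {β : ℝ} (hβ : 0 ≤ β) (h : ∀ ψ h : ℂ → ℂ, IsSig ψ h → LowR t β h) : Low t β := by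
  intro ψ g hS ε hε
  obtain ⟨K, hK⟩ := h ψ g hS ε hε
  refine ⟨|K| * 3 ^ (β + ε), fun R₀ hR₀ => ?_⟩
  obtain ⟨R, h1, h2, h3⟩ := hK (min R₀ 2) (lt_min hR₀ one_lt_two)
  refine ⟨R, h1, h2.trans_le (min_le_left _ _), h3.trans ?_⟩
  have h4 := pow_le_q h1 (h2.trans_le (min_le_right _ _)) (show 0 ≤ β + ε by linarith)
  have h5 : 0 ≤ (R - 1) ^ (-(β + ε)) := Real.rpow_nonneg (by linarith) _
  calc K * (R - 1) ^ (-(β + ε)) ≤ |K| * (R - 1) ^ (-(β + ε)) := mul_le_mul_of_nonneg_right (le_abs_self K) h5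
    _ ≤ |K| * (3 ^ (β + ε) * (R ^ 2 / (R ^ 2 - 1)) ^ (β + ε)) := mul_le_mul_of_nonneg_left h4 (abs_nonneg K)
    _ = _ := by ring

theorem upR_lowR {t : ℂ} {β : ℝ} {h : ℂ → ℂ} (H : UpR t β h) : LowR t β h := by
  intro ε hε
  obtain ⟨K, R₁, hR₁, hK⟩ := H ε hε
  refine ⟨K, fun R₀ hR₀ => ?_⟩
  obtain ⟨R, h1, h2⟩ := exists_between (lt_min hR₀ hR₁)
  exact ⟨R, h1, h2.trans_le (min_le_left _ _), hK R h1 (h2.trans_le (min_le_right _ _))⟩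

theorem binder_upR (H : Binder) : ∀ t : ℂ, ‖t‖ ≤ 2 → ∀ ψ h : ℂ → ℂ, IsSig ψ h → UpR t (‖t‖ ^ 2 / 4) h := by
  intro t ht ψ g hS ε hε
  obtain ⟨K, R₁, hR₁, hK⟩ := H ψ g hS t ht ε hε
  refine ⟨|K| * 2 ^ (‖t‖ ^ 2 / 4 + ε), min R₁ 2, lt_min hR₁ one_lt_two, fun R h1 h2 => ?_⟩
  refine (hK R h1 (h2.trans_le (min_le_left _ _))).trans ?_
  have he : 0 ≤ ‖t‖ ^ 2 / 4 + ε := by positivity
  have h4 := q_pow_le h1 (h2.trans_le (min_le_right _ _)) he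
  have hR2 : 0 < R ^ 2 - 1 := by nlinarith
  have h5 : 0 ≤ (R ^ 2 / (R ^ 2 - 1)) ^ (‖t‖ ^ 2 / 4 + ε) := by positivity
  calc K * (R ^ 2 / (R ^ 2 - 1)) ^ (‖t‖ ^ 2 / 4 + ε) ≤ |K| * (R ^ 2 / (R ^ 2 - 1)) ^ (‖t‖ ^ 2 / 4 + ε) :=
        mul_le_mul_of_nonneg_right (le_abs_self K) h5
    _ ≤ |K| * (2 ^ (‖t‖ ^ 2 / 4 + ε) * (R - 1) ^ (-(‖t‖ ^ 2 / 4 + ε))) := mul_le_mul_of_nonneg_left h4 (abs_nonneg K)
    _ = _ := by ring

/-- the bound of the means by the integral of the question, at one radius -/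
theorem pmean_le_marshall {ψ h : ℂ → ℂ} (hS : IsSig ψ h) {R : ℝ} (hR : 1 < R) {c : ℝ} (hc0 : 0 < c) (t : ℂ) :
    pmean t R h ≤ marshall (1 / (4 * c)) R h * (R ^ 2 / (R ^ 2 - 1)) ^ (c * ‖t‖ ^ 2) := by
  have hS' : Q90.SM.IsSig ψ h := hS
  have hL := Q90.SM.L_pos hR
  have hcont := hS'.cont hR
  have hq : 0 < R ^ 2 / (R ^ 2 - 1) := by
    have : 0 < R ^ 2 - 1 := by nlinarith
    positivity
  have e1 : (R ^ 2 / (R ^ 2 - 1)) ^ (c * ‖t‖ ^ 2) = Real.exp (c * ‖t‖ ^ 2 * Real.log (R ^ 2 / (R ^ 2 - 1))) := by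
    rw [Real.rpow_def_of_pos hq, mul_comm]
  set L : ℝ := Real.log (R ^ 2 / (R ^ 2 - 1)) with hLdef
  calc pmean t R h ≤ (1 / (2 * Real.pi)) * ∫ θ in (0:ℝ)..(2 * Real.pi),
        Real.exp (1 / (4 * c) * ‖h (circ R θ)‖ ^ 2 / L) * Real.exp (c * ‖t‖ ^ 2 * L) := by
        apply Q90.SM.mean_le
        · exact (Complex.continuous_exp.comp (continuous_const.mul hcont)).norm
        · exact (Real.continuous_exp.comp ((continuous_const.mul (hcont.norm.pow 2)).div_const _)).mul continuous_const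
        · intro θ
          rw [Complex.norm_exp, ← Real.exp_add]
          apply Real.exp_le_exp.2
          have h3 : (t * h (circ R θ)).re ≤ ‖t‖ * ‖h (circ R θ)‖ := by
            rw [← norm_mul]
            exact Complex.re_le_norm _
          refine h3.trans ?_
          set y := ‖h (circ R θ)‖
          have h4 : 1 / (4 * c) * y ^ 2 / L + c * ‖t‖ ^ 2 * L - ‖t‖ * y = (y / (2 * c * L) - ‖t‖) ^ 2 * (c * L) := by
            field_simp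
            ring
          have h5 : 0 ≤ (y / (2 * c * L) - ‖t‖) ^ 2 * (c * L) := by positivity
          linarith
    _ = marshall (1 / (4 * c)) R h * Real.exp (c * ‖t‖ ^ 2 * L) := by
        rw [intervalIntegral.integral_mul_const, ← mul_assoc]
        rfl
    _ = _ := by rw [e1]

theorem sml_lowR (H : SMl) : ∀ t : ℂ, ‖t‖ ≤ 2 → ∀ ψ h : ℂ → ℂ, IsSig ψ h → LowR t (‖t‖ ^ 2 / 4) h := by
  intro t ht ψ g hS ε hε
  set c : ℝ := 1 / 4 + ε / 4 with hc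
  have hc0 : 0 < c := by positivity
  have ha1 : 1 / (4 * c) < 1 := by
    rw [div_lt_one (by positivity)]
    rw [hc]
    linarith
  obtain ⟨C, hC⟩ := H (1 / (4 * c)) (by positivity) ha1 ψ g hS
  refine ⟨|C| * 2 ^ (‖t‖ ^ 2 / 4 + ε), fun R₀ hR₀ => ?_⟩
  obtain ⟨R, h1, h2, h3⟩ := hC (min R₀ 2) (lt_min hR₀ one_lt_two)
  refine ⟨R, h1, h2.trans_le (min_le_left _ _), ?_⟩
  have hR2 : 0 < R ^ 2 - 1 := by nlinarith
  have hq1 : 1 ≤ R ^ 2 / (R ^ 2 - 1) := by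
    rw [le_div_iff₀ hR2]
    linarith
  have he : c * ‖t‖ ^ 2 ≤ ‖t‖ ^ 2 / 4 + ε := by
    have h5 : ‖t‖ ^ 2 ≤ 4 := by
      have := norm_nonneg t
      nlinarith
    rw [hc]
    nlinarith
  have h4 := q_pow_le h1 (h2.trans_le (min_le_right _ _)) (show 0 ≤ ‖t‖ ^ 2 / 4 + ε by positivity)
  have h6 : 0 ≤ (R ^ 2 / (R ^ 2 - 1)) ^ (c * ‖t‖ ^ 2) := by positivity
  calc pmean t R g ≤ marshall (1 / (4 * c)) R g * (R ^ 2 / (R ^ 2 - 1)) ^ (c * ‖t‖ ^ 2) := pmean_le_marshall hS h1 hc0 t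
    _ ≤ |C| * (R ^ 2 / (R ^ 2 - 1)) ^ (c * ‖t‖ ^ 2) := mul_le_mul_of_nonneg_right (h3.trans (le_abs_self C)) h6
    _ ≤ |C| * (2 ^ (‖t‖ ^ 2 / 4 + ε) * (R - 1) ^ (-(‖t‖ ^ 2 / 4 + ε))) :=
        mul_le_mul_of_nonneg_left ((Real.rpow_le_rpow_of_exponent_le hq1 he).trans h4) (abs_nonneg C)
    _ = _ := by ring

theorem sms_sml (H : SMs) : SMl := by
  intro a ha ha1 ψ h hS
  obtain ⟨C, R₁, hR₁, hC⟩ := H a ha ha1 ψ h hS
  refine ⟨C, fun R₀ hR₀ => ?_⟩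
  obtain ⟨R, h1, h2⟩ := exists_between (lt_min hR₀ hR₁)
  exact ⟨R, h1, h2.trans_le (min_le_left _ _), hC R h1 (h2.trans_le (min_le_right _ _))⟩

/-- **the equivalences** -/
theorem tfae : List.TFAE [SMa, SMs, SMl,
    (∀ t : ℂ, ‖t‖ ≤ 2 → ∀ ψ h : ℂ → ℂ, IsSig ψ h → UpR t (‖t‖ ^ 2 / 4) h),
    (∀ t : ℂ, ‖t‖ ≤ 2 → ∀ ψ h : ℂ → ℂ, IsSig ψ h → LowR t (‖t‖ ^ 2 / 4) h), Sharp, SharpM] := by
  tfae_have 1 → 2 := sma_sms
  tfae_have 2 → 3 := sms_sml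
  tfae_have 3 → 5 := sml_lowR
  tfae_have 2 → 4 := fun h => binder_upR (sms_binder h)
  tfae_have 4 → 5 := fun h t ht ψ g hS => upR_lowR (h t ht ψ g hS)
  tfae_have 5 → 6 := fun h => low_sharp fun t ht => lowR_low (by positivity) (h t ht)
  tfae_have 6 → 7 := sharp_sharpM
  tfae_have 7 → 1 := sharpM_sma
  tfae_finish

end Pool.Agent.V5helper27.BM
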