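import Pool.Agent.V5helper27.BM.Stm2

set_option autoImplicit false

/-! # DAT1, part 1: general facts and the lower bound -/

open Complex Filter Topology Set Metric MeasureTheory

namespace Pool.Agent.V5helper27.BM

theorem isOpen_Ex : IsOpen Ex := isOpen_lt continuous_const continuous_norm

theorem Ex_ne {u : ℂ} (hu : u ∈ Ex) : u ≠ 0 := by
  intro h
  have : (1:ℝ) < ‖u‖ := hu
  rw [h, norm_zero] at this
  linarith

theorem LR_eq {R : ℝ} (hR : 1 < R) : LR R = -Real.log (1 - (R⁻¹) ^ 2) := by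
  have hR0 : 0 < R := by linarith
  have hR2 : 0 < R ^ 2 - 1 := by nlinarith
  have : 1 - R⁻¹ ^ 2 = (R ^ 2 / (R ^ 2 - 1))⁻¹ := by
    field_simp
  rw [LR, this, Real.log_inv, neg_neg]

theorem LR_pos {R : ℝ} (hR : 1 < R) : 0 < LR R := by
  have : 0 < R ^ 2 - 1 := by nlinarith
  apply Real.log_pos
  rw [lt_div_iff₀ this]
  linarith

theorem LR_anti {R₀ R : ℝ} (hR₀ : 1 < R₀) (hR : R₀ ≤ R) : LR R ≤ LR R₀ := by
  have h1 : 0 < R ^ 2 - 1 := by nlinarith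
  have h2 : 0 < R₀ ^ 2 - 1 := by nlinarith
  have h3 : 0 < R := by linarith
  apply Real.log_le_log (by positivity)
  rw [div_le_div_iff₀ h1 h2]
  nlinarith

theorem LR_le {R : ℝ} (hR : 2 ≤ R) : LR R ≤ 2 / R ^ 2 := by
  have hR0 : 0 < R := by linarith
  have h1 : 0 < R ^ 2 - 1 := by nlinarith
  have h2 : R ^ 2 / (R ^ 2 - 1) = 1 + 1 / (R ^ 2 - 1) := by field_simp; ring
  rw [LR, h2]
  have h3 := Real.log_le_sub_one_of_pos (show 0 < 1 + 1 / (R ^ 2 - 1) by positivity)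
  refine h3.trans ?_
  rw [add_sub_cancel_left, div_le_div_iff₀ h1 (by positivity)]
  nlinarith

theorem tendsto_of_dec {f : ℂ → ℂ} {C : ℝ} (h : ∀ u : ℂ, 2 ≤ ‖u‖ → ‖f u‖ ≤ C / ‖u‖) :
    Tendsto f (Bornology.cobounded ℂ) (𝓝 0) := by
  rw [tendsto_zero_iff_norm_tendsto_zero]
  have h1 : Tendsto (fun u : ℂ => C / ‖u‖) (Bornology.cobounded ℂ) (𝓝 0) :=
    Tendsto.div_atTop tendsto_const_nhds tendsto_norm_cobounded_atTop
  refine squeeze_zero' (Eventually.of_forall fun u => norm_nonneg _) ?_ h1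
  filter_upwards [tendsto_norm_cobounded_atTop.eventually_ge_atTop 2] with u hu
  exact h u hu

theorem sqrt2_lt : (1.41 : ℝ) < Real.sqrt 2 := by
  rw [Real.lt_sqrt (by norm_num)]
  norm_num

theorem lower (hn : ‖z0‖ = Real.sqrt 2) (hkd : ∀ u ∈ Ex, ‖u‖ ≤ ‖kk u‖ ∧ 1 < ‖kk u - z0‖) : ∃ r₀ : ℝ, 0 < r₀ ∧ r₀ ≤ 1 ∧
    ∀ ψ₂ h₂ : ℂ → ℂ, IsSig ψ₂ h₂ → ∀ G : ℂ → ℂ,
    (∀ z ∈ Ex, cexp (G z) * (z - z0) = ψ₂ z - ψ₂ z0) → (∀ z ∈ Ex, ‖G z‖ ≤ Real.sqrt (LR ‖z‖ * LR ‖z0‖)) →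
    ∀ u ∈ Ex, r₀ * Real.sqrt 2 ≤ ‖ψ₂ (kk u) - ψ₂ z0‖ := by
  have h2 := sqrt2_lt
  have h2' : 0 < Real.sqrt 2 := by linarith
  obtain ⟨g₀, hg₀⟩ : ∃ g₀, g₀ = Real.sqrt (LR 1.16 * LR (Real.sqrt 2)) := ⟨_, rfl⟩
  have hg₀' : 0 ≤ g₀ := by rw [hg₀]; exact Real.sqrt_nonneg _
  obtain ⟨r₀, hr₀⟩ : ∃ r₀, r₀ = Real.exp (-g₀) / 8 / Real.sqrt 2 := ⟨_, rfl⟩
  refine ⟨r₀, by rw [hr₀]; positivity, ?_, ?_⟩
  · rw [hr₀, div_div, div_le_one (by positivity)]
    have : Real.exp (-g₀) ≤ 1 := Real.exp_le_one_iff.2 (by linarith)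
    nlinarith
  · intro ψ₂ h₂ hS G hG hGb u hu
    have hz0 : z0 ∈ Ex := by
      show 1 < ‖z0‖
      rw [hn]; linarith
    have hsub : closedBall z0 (1/4) ⊆ Ex := by
      intro z hz
      rw [mem_closedBall, dist_eq_norm] at hz
      show 1 < ‖z‖
      have := norm_sub_norm_le z0 (z0 - z)
      rw [sub_sub_cancel, norm_sub_rev, hn] at this
      linarith
    have hne : r₀ * Real.sqrt 2 = Real.exp (-g₀) / 8 := by
      rw [hr₀]; field_simp
    rw [hne]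
    by_contra hcon
    push Not at hcon
    have hdiff : DiffContOnCl ℂ ψ₂ (ball z0 (1/4)) := by
      apply DifferentiableOn.diffContOnCl
      rw [closure_ball _ (by norm_num)]
      exact hS.1.mono hsub
    have hsph : ∀ z ∈ sphere z0 (1/4 : ℝ), Real.exp (-g₀) / 4 ≤ ‖ψ₂ z - ψ₂ z0‖ := by
      intro z hz
      have hzE := hsub (sphere_subset_closedBall hz)
      rw [mem_sphere, dist_eq_norm] at hz
      rw [← hG z hzE, norm_mul, hz, Complex.norm_exp]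
      have h5 := hGb z hzE
      have h6 : (1.16 : ℝ) ≤ ‖z‖ := by
        have := norm_sub_norm_le z0 (z0 - z)
        rw [sub_sub_cancel, norm_sub_rev, hz, hn] at this
        linarith
      have h7 : ‖G z‖ ≤ g₀ := by
        refine h5.trans ?_
        rw [hg₀, hn]
        apply Real.sqrt_le_sqrt
        have := LR_anti (by norm_num : (1:ℝ) < 1.16) h6
        have h8 := (LR_pos (show 1 < Real.sqrt 2 by linarith)).le
        exact mul_le_mul_of_nonneg_right this h8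
      have h9 : -g₀ ≤ (G z).re := by
        have := abs_le.1 ((Complex.abs_re_le_norm (G z)).trans h7)
        exact this.1
      have := Real.exp_le_exp.2 h9
      linarith
    have hfr : ∃ᶠ z in 𝓝 z0, ψ₂ z ≠ ψ₂ z0 := by
      have h5 : ∃ᶠ z in 𝓝[≠] z0, True := by
        exact Filter.frequently_true_iff_neBot _ |>.2 inferInstance
      have h6 : ∃ᶠ z in 𝓝 z0, z ∈ ({z0}ᶜ : Set ℂ) := by
        have := frequently_nhdsWithin_iff.1 h5
        refine this.mono fun z hz => hz.2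
      have h7 : ∀ᶠ z in 𝓝 z0, z ∈ Ex := isOpen_Ex.mem_nhds hz0
      refine (h6.and_eventually h7).mono fun z hz h0 => hz.1 (hS.2.1 hz.2 hz0 h0)
    have hb := hdiff.ball_subset_image_closedBall (by norm_num) hsph hfr
    have hmem : ψ₂ (kk u) ∈ ball (ψ₂ z0) (Real.exp (-g₀) / 4 / 2) := by
      rw [mem_ball, dist_eq_norm]
      linarith
    obtain ⟨z', hz', he⟩ := hb hmem
    have hkE : kk u ∈ Ex := by
      show 1 < ‖kk u‖
      have h1 : (1:ℝ) < ‖u‖ := hu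
      exact lt_of_lt_of_le h1 (hkd u hu).1
    have heq := hS.2.1 (hsub hz') hkE he
    rw [heq, mem_closedBall, dist_eq_norm] at hz'
    have := (hkd u hu).2
    linarith

end Pool.Agent.V5helper27.BM
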