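import Pool.Agent.V5helper27.BM.D1a
import Pool.Agent.W677.MarF3

set_option autoImplicit false

/-! # DAT1, part 2: the bound from below of `Re l` by Schwarz's lemma -/

open Complex Filter Topology Set Metric MeasureTheory

namespace Pool.Agent.V5helper27.BM

open Pool.Agent.W677.Mar (hat hat_zero hat_ne hat_diff inv_ext Hol)

theorem low_of {l : ℂ → ℂ} (hl : DifferentiableOn ℂ l Ex) (h0 : Tendsto l (Bornology.cobounded ℂ) (𝓝 0)) {r₀ : ℝ}
    (hr₀ : 0 < r₀) (h : ∀ u ∈ Ex, r₀ ≤ ‖u * cexp (l u)‖) : ∀ u ∈ Ex, Real.log r₀ ≤ (l u).re := by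
  intro u hu
  have hH : Hol l 0 := ⟨hl, h0⟩
  have hd := hat_diff hH
  set f : ℂ → ℂ := fun w => (r₀ : ℂ) * (w * cexp (-(hat l 0 w))) with hf
  have hfd : DifferentiableOn ℂ f (ball 0 1) :=
    (differentiableOn_id.mul hd.neg.cexp).const_mul _
  have hf0 : f 0 = 0 := by simp [hf]
  have hmap : MapsTo f (ball 0 1) (closedBall 0 1) := by
    intro w hw
    rw [mem_closedBall_zero_iff]
    by_cases hw0 : w = 0
    · rw [hw0, hf0, norm_zero]; exact zero_le_one
    · have h1 := h w⁻¹ (inv_ext hw hw0)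
      have hwn : 0 < ‖w‖ := norm_pos_iff.2 hw0
      rw [norm_mul, norm_inv] at h1
      simp only [hf]
      rw [norm_mul, norm_mul, hat_ne l 0 hw0, Complex.norm_exp, Complex.norm_real, Real.norm_of_nonneg hr₀.le,
        Complex.neg_re, Real.exp_neg]
      rw [Complex.norm_exp] at h1
      have h2 := Real.exp_pos (l w⁻¹).re
      have h3 : r₀ * ‖w‖ ≤ Real.exp (l w⁻¹).re := by
        have := mul_le_mul_of_nonneg_right h1 hwn.le
        have e : ‖w‖⁻¹ * Real.exp (l w⁻¹).re * ‖w‖ = Real.exp (l w⁻¹).re := by field_simp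
        rwa [e] at this
      rw [← mul_assoc, ← div_eq_mul_inv, div_le_one h2]
      exact h3
  have hu0 := Ex_ne hu
  have hun : 0 < ‖u‖ := norm_pos_iff.2 hu0
  have hu1 : (1:ℝ) < ‖u‖ := hu
  have hw : ‖u⁻¹‖ < 1 := by
    rw [norm_inv]; exact inv_lt_one_of_one_lt₀ hu1
  have key := Complex.norm_le_norm_of_mapsTo_ball hfd hmap hf0 hw
  simp only [hf] at key
  rw [norm_mul, norm_mul, hat_ne l 0 (inv_ne_zero hu0), inv_inv, Complex.norm_exp, Complex.norm_real,
    Real.norm_of_nonneg hr₀.le, Complex.neg_re, Real.exp_neg] at key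
  have h2 := Real.exp_pos (l u).re
  have hin : 0 < ‖u⁻¹‖ := by rw [norm_inv]; positivity
  have h3 : r₀ ≤ Real.exp (l u).re := by
    have e : r₀ * (‖u⁻¹‖ * (Real.exp (l u).re)⁻¹) = ‖u⁻¹‖ * (r₀ / Real.exp (l u).re) := by
      field_simp
    rw [e] at key
    have h4 : r₀ / Real.exp (l u).re ≤ 1 := by
      by_contra hc
      push Not at hc
      have := mul_lt_mul_of_pos_left hc hin
      linarith
    rwa [div_le_one h2] at h4
  exact (Real.log_le_iff_le_exp hr₀).2 h3

end Pool.Agent.V5helper27.BM
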