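import Pool.Agent.V5helper27.BM.D1a

set_option autoImplicit false

/-! # DAT1, part 3: the root transform -/

open Complex Filter Topology Set Metric MeasureTheory

namespace Pool.Agent.V5helper27.BM

theorem pow_Ex {z : ℂ} (hz : z ∈ Ex) {M : ℕ} (hM : 2 ≤ M) : z ^ M ∈ Ex := by
  show 1 < ‖z ^ M‖
  rw [norm_pow]
  exact one_lt_pow₀ hz (by omega)

theorem tendsto_pow_cobounded {M : ℕ} (hM : 2 ≤ M) :
    Tendsto (fun z : ℂ => z ^ M) (Bornology.cobounded ℂ) (Bornology.cobounded ℂ) := by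
  rw [← tendsto_norm_atTop_iff_cobounded]
  simp only [norm_pow]
  exact (tendsto_pow_atTop (by omega)).comp tendsto_norm_cobounded_atTop

theorem root {l Φ : ℂ → ℂ} (hl : DifferentiableOn ℂ l Ex) (hΦ : DifferentiableOn ℂ Φ Ex) {C : ℝ}
    (hC : ∀ u : ℂ, 2 ≤ ‖u‖ → ‖l u‖ ≤ C / ‖u‖ ∧ ‖Φ u‖ ≤ C / ‖u‖)
    (hi : InjOn (fun u => u * cexp (l u)) Ex)
    (hd : ∀ u ∈ Ex, HasDerivAt (fun u => u * cexp (l u)) (cexp (Φ u)) u) {M : ℕ} (hM : 2 ≤ M) :
    IsSig (fun z => z * cexp (l (z ^ M) / M)) (fun z => Φ (z ^ M) - (1 - 1 / (M : ℂ)) * l (z ^ M)) := by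
  have hM0 : (M : ℂ) ≠ 0 := by
    exact_mod_cast (by omega : M ≠ 0)
  have hmap : MapsTo (fun z : ℂ => z ^ M) Ex Ex := fun z hz => pow_Ex hz hM
  have hlc : DifferentiableOn ℂ (fun z => l (z ^ M)) Ex := hl.comp (by fun_prop) hmap
  have hΦc : DifferentiableOn ℂ (fun z => Φ (z ^ M)) Ex := hΦ.comp (by fun_prop) hmap
  have hl0 := tendsto_of_dec fun u hu => (hC u hu).1
  have hΦ0 := tendsto_of_dec fun u hu => (hC u hu).2
  have hpow := tendsto_pow_cobounded hM
  refine ⟨differentiableOn_id.mul (hlc.div_const _).cexp, ?_, ⟨0, ?_⟩, ?_, ?_, ?_⟩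
  · intro z hz w hw he
    have hz' : z ∈ Ex := hz
    have hw' : w ∈ Ex := hw
    have h1 : z ^ M * cexp (l (z ^ M)) = w ^ M * cexp (l (w ^ M)) := by
      have e : ∀ x : ℂ, (x * cexp (l (x ^ M) / M)) ^ M = x ^ M * cexp (l (x ^ M)) := by
        intro x
        rw [mul_pow, ← Complex.exp_nat_mul]
        congr 2
        field_simp
      rw [← e z, ← e w]
      exact congrArg (· ^ M) he
    have h2 := hi (pow_Ex hz' hM) (pow_Ex hw' hM) h1
    have he' : z * cexp (l (z ^ M) / M) = w * cexp (l (w ^ M) / M) := he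
    rw [h2] at he'
    exact mul_right_cancel₀ (Complex.exp_ne_zero _) he'
  · rw [tendsto_zero_iff_norm_tendsto_zero]
    have h1 : Tendsto (fun u : ℂ => 2 * |C| / ‖u‖) (Bornology.cobounded ℂ) (𝓝 0) :=
      Tendsto.div_atTop tendsto_const_nhds tendsto_norm_cobounded_atTop
    refine squeeze_zero' (Eventually.of_forall fun u => norm_nonneg _) ?_ h1
    have hev : ∀ᶠ z : ℂ in Bornology.cobounded ℂ, ‖l (z ^ M)‖ < 1 := by
      have := (hl0.comp hpow).norm
      simp only [norm_zero] at this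
      exact this.eventually_lt_const one_pos
    filter_upwards [tendsto_norm_cobounded_atTop.eventually_ge_atTop 2, hev] with z hz hz1
    have hzp : 2 ≤ ‖z ^ M‖ := by
      rw [norm_pow]
      calc (2:ℝ) ≤ ‖z‖ := hz
        _ ≤ ‖z‖ ^ M := le_self_pow₀ (by linarith) (by omega)
    have hMr : (1:ℝ) ≤ M := by exact_mod_cast (by omega : 1 ≤ M)
    have h2 : ‖l (z ^ M) / M‖ ≤ ‖l (z ^ M)‖ := by
      rw [norm_div, Complex.norm_natCast]
      exact div_le_self (norm_nonneg _) hMr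
    have h3 := Complex.norm_exp_sub_one_le (h2.trans hz1.le)
    have e : z * cexp (l (z ^ M) / M) - z = z * (cexp (l (z ^ M) / M) - 1) := by ring
    rw [e, norm_mul]
    have h4 := (hC _ hzp).1
    have hzpos : 0 < ‖z‖ := by linarith
    have h5 : ‖z‖ ^ 2 ≤ ‖z‖ ^ M := pow_le_pow_right₀ (by linarith) hM
    calc ‖z‖ * ‖cexp (l (z ^ M) / M) - 1‖ ≤ ‖z‖ * (2 * (|C| / ‖z‖ ^ M)) := by
          gcongr
          refine h3.trans ?_
          have : ‖l (z ^ M)‖ ≤ |C| / ‖z‖ ^ M := by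
            refine h4.trans ?_
            rw [norm_pow]
            gcongr
            exact le_abs_self C
          linarith
      _ ≤ ‖z‖ * (2 * (|C| / ‖z‖ ^ 2)) := by gcongr
      _ = 2 * |C| / ‖z‖ := by field_simp
  · exact hΦc.sub (hlc.const_mul _)
  · intro z hz
    have hz' : z ∈ Ex := hz
    have hu := pow_Ex hz' hM
    have hz0 := Ex_ne hz'
    have hld : HasDerivAt l (deriv l (z ^ M)) (z ^ M) :=
      (hl.differentiableAt (isOpen_Ex.mem_nhds hu)).hasDerivAt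
    have h1 : HasDerivAt (fun u => u * cexp (l u)) (1 * cexp (l (z ^ M)) + z ^ M * (cexp (l (z ^ M)) * deriv l (z ^ M)))
        (z ^ M) := (hasDerivAt_id _).mul hld.cexp
    have h2 := h1.unique (hd _ hu)
    have h3 : HasDerivAt (fun z : ℂ => l (z ^ M)) (deriv l (z ^ M) * (M * z ^ (M - 1))) z :=
      hld.comp z (hasDerivAt_pow M z)
    have h4 : HasDerivAt (fun z : ℂ => z * cexp (l (z ^ M) / M))
        (1 * cexp (l (z ^ M) / M) + z * (cexp (l (z ^ M) / M) * (deriv l (z ^ M) * (M * z ^ (M - 1)) / M))) z :=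
      (hasDerivAt_id _).mul (h3.div_const _).cexp
    rw [h4.deriv]
    have hzM : z * z ^ (M - 1) = z ^ M := by
      rw [← pow_succ']
      congr 1
      omega
    have e1 : 1 * cexp (l (z ^ M) / M) + z * (cexp (l (z ^ M) / M) * (deriv l (z ^ M) * (M * z ^ (M - 1)) / M)) =
        cexp (l (z ^ M) / M) * (1 + z ^ M * deriv l (z ^ M)) := by
      rw [← hzM]
      field_simp
    have e2 : 1 + z ^ M * deriv l (z ^ M) = cexp (Φ (z ^ M)) / cexp (l (z ^ M)) := by
      rw [eq_div_iff (Complex.exp_ne_zero _), ← h2]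
      ring
    rw [e1, e2, ← Complex.exp_sub, ← Complex.exp_add]
    congr 1
    ring
  · have h1 := (hΦ0.comp hpow).sub ((hl0.comp hpow).const_mul (1 - 1 / (M : ℂ)))
    simpa using h1

end Pool.Agent.V5helper27.BM
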