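import Pool.Agent.V5helper27.BM.D1b
import Pool.Agent.V5helper27.BM.D1c

set_option autoImplicit false

/-! # DAT1 -/

open Complex Filter Topology Set Metric MeasureTheory

namespace Pool.Agent.V5helper27.BM

theorem dat1 (hk : S_km1) (hg1 : S_gol1) (hc : S_comp) : S_dat1 := by
  obtain ⟨hn, hkd, hki, hkb, hsd, hse, hnd, hne, C₁, hC₁⟩ := hk
  obtain ⟨r₀, hr₀, hr₀1, hlow⟩ := lower hn hkb
  refine ⟨1 - Real.log r₀, ?_⟩
  intro ψ₂ h₂ hS G hG hGe hGb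
  have h2 := sqrt2_lt
  have hs2 : (Real.sqrt 2 : ℂ) ≠ 0 := by
    have : Real.sqrt 2 ≠ 0 := by linarith
    exact_mod_cast this
  have hs2n : ‖(Real.sqrt 2 : ℂ)‖ = Real.sqrt 2 := by
    rw [Complex.norm_real, Real.norm_of_nonneg (by linarith)]
  have hmap : MapsTo kk Ex Ex := fun u hu => by
    have h1 : (1:ℝ) < ‖u‖ := hu
    exact lt_of_lt_of_le h1 (hkb u hu).1
  have hz0 : z0 ∈ Ex := by
    show 1 < ‖z0‖
    rw [hn]; linarith
  have hlogr : Real.log r₀ ≤ 0 := Real.log_nonpos hr₀.le hr₀1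
  set l : ℂ → ℂ := fun u => G (kk u) + nn u with hl
  set Φ : ℂ → ℂ := fun u => h₂ (kk u) + sg u with hΦ
  have hh₂ : DifferentiableOn ℂ h₂ Ex := hS.2.2.2.1
  have hψ₂ : DifferentiableOn ℂ ψ₂ Ex := hS.1
  have dl : DifferentiableOn ℂ l Ex := (hG.comp hkd hmap).add hnd
  have dΦ : DifferentiableOn ℂ Φ Ex := (hh₂.comp hkd hmap).add hsd
  have key : ∀ u ∈ Ex, u * cexp (l u) = (ψ₂ (kk u) - ψ₂ z0) / (Real.sqrt 2 : ℂ) := by
    intro u hu
    rw [eq_div_iff hs2, ← hGe _ (hmap hu), ← hne u hu]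
    simp only [hl]
    rw [Complex.exp_add]
    ring
  obtain ⟨C, hCdef⟩ : ∃ C, C = |C₁| + Real.sqrt (2 * LR ‖z0‖) + 1 := ⟨_, rfl⟩
  have hLz : 0 < LR ‖z0‖ := LR_pos hz0
  have dec : ∀ u : ℂ, 2 ≤ ‖u‖ → ‖l u‖ ≤ C / ‖u‖ ∧ ‖Φ u‖ ≤ C / ‖u‖ := by
    intro u hu
    have hu0 : 0 < ‖u‖ := by linarith
    have huE : u ∈ Ex := by
      show 1 < ‖u‖
      linarith
    have hku := (hkb u huE).1
    have hk2 : 2 ≤ ‖kk u‖ := hu.trans hku
    have hLR : LR ‖kk u‖ ≤ 2 / ‖u‖ ^ 2 := by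
      refine (LR_le hk2).trans ?_
      gcongr
    have hs := (hC₁ u hu).1
    have hn' := (hC₁ u hu).2
    have hC₁' : C₁ / ‖u‖ ≤ |C₁| / ‖u‖ := by gcongr; exact le_abs_self _
    have hsq : 0 ≤ Real.sqrt (2 * LR ‖z0‖) / ‖u‖ := by positivity
    have e : C / ‖u‖ = |C₁| / ‖u‖ + Real.sqrt (2 * LR ‖z0‖) / ‖u‖ + 1 / ‖u‖ := by
      rw [hCdef]; ring
    have h1u : 0 ≤ 1 / ‖u‖ := by positivity
    constructor
    · have h3 : ‖G (kk u)‖ ≤ Real.sqrt (2 * LR ‖z0‖) / ‖u‖ := by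
        refine (hGb _ (hmap huE)).trans ?_
        refine Real.sqrt_le_iff.2 ⟨hsq, ?_⟩
        rw [div_pow, Real.sq_sqrt (by positivity)]
        calc LR ‖kk u‖ * LR ‖z0‖ ≤ 2 / ‖u‖ ^ 2 * LR ‖z0‖ := mul_le_mul_of_nonneg_right hLR hLz.le
          _ = 2 * LR ‖z0‖ / ‖u‖ ^ 2 := by ring
      calc ‖l u‖ ≤ ‖G (kk u)‖ + ‖nn u‖ := norm_add_le _ _
        _ ≤ C / ‖u‖ := by rw [e]; linarith
    · have h3 : ‖h₂ (kk u)‖ ≤ 1 / ‖u‖ := by
        refine (hg1 ψ₂ h₂ hS _ (hmap huE)).trans (hLR.trans ?_)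
        rw [div_le_div_iff₀ (by positivity) hu0]
        nlinarith
      calc ‖Φ u‖ ≤ ‖h₂ (kk u)‖ + ‖sg u‖ := norm_add_le _ _
        _ ≤ C / ‖u‖ := by rw [e]; linarith
  have low : ∀ u ∈ Ex, 1 - (1 - Real.log r₀) ≤ (l u).re := by
    intro u hu
    rw [sub_sub_cancel]
    refine low_of dl (tendsto_of_dec fun u hu => (dec u hu).1) hr₀ ?_ u hu
    intro u hu
    rw [key u hu, norm_div, hs2n, le_div_iff₀ (by linarith)]
    exact hlow ψ₂ h₂ hS G hGe hGb u hu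
  have hinj : InjOn (fun u => u * cexp (l u)) Ex := by
    intro u hu v hv he
    have he' : u * cexp (l u) = v * cexp (l v) := he
    rw [key u hu, key v hv, div_left_inj' hs2, sub_left_inj] at he'
    exact hki hu hv (hS.2.1 (hmap hu) (hmap hv) he')
  have hder : ∀ u ∈ Ex, HasDerivAt (fun u => u * cexp (l u)) (cexp (Φ u)) u := by
    intro u hu
    have hkA : HasDerivAt kk (deriv kk u) u := (hkd.differentiableAt (isOpen_Ex.mem_nhds hu)).hasDerivAt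
    have hψA : HasDerivAt ψ₂ (deriv ψ₂ (kk u)) (kk u) :=
      (hψ₂.differentiableAt (isOpen_Ex.mem_nhds (hmap hu))).hasDerivAt
    have h3 : HasDerivAt (fun u => (ψ₂ (kk u) - ψ₂ z0) / (Real.sqrt 2 : ℂ))
        (deriv ψ₂ (kk u) * deriv kk u / (Real.sqrt 2 : ℂ)) u :=
      ((hψA.comp u hkA).sub_const _).div_const _
    have h4 : deriv ψ₂ (kk u) * deriv kk u / (Real.sqrt 2 : ℂ) = cexp (Φ u) := by
      rw [← hS.2.2.2.2.1 _ (hmap hu), ← hse u hu]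
      simp only [hΦ]
      rw [Complex.exp_add]
      field_simp
    rw [h4] at h3
    refine h3.congr_of_eventuallyEq ?_
    filter_upwards [isOpen_Ex.mem_nhds hu] with v hv
    exact key v hv
  refine ⟨by linarith, dl, dΦ, ⟨C, dec⟩, low, ?_⟩
  intro M hM ψ₁ h₁ hS₁
  have hg := root dl dΦ dec hinj hder hM
  have hM0 : (M : ℂ) ≠ 0 := by
    exact_mod_cast (by omega : M ≠ 0)
  have hMr : (0:ℝ) < M := by exact_mod_cast (by omega : 0 < M)
  have hρg : ∀ z : ℂ, cexp (((1 - Real.log r₀ : ℝ) : ℂ) / M) * (z * cexp (l (z ^ M) / M)) =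
      cexp ((((1 - Real.log r₀ : ℝ) : ℂ) + l (z ^ M)) / M) * z := by
    intro z
    generalize l (z ^ M) = y
    rw [add_div, Complex.exp_add]
    ring
  have h5 := hc ψ₁ h₁ _ _ hS₁ hg (cexp (((1 - Real.log r₀ : ℝ) : ℂ) / M)) (Complex.exp_ne_zero _) (by
    intro z hz
    have hz' : (1:ℝ) < ‖z‖ := hz
    rw [hρg z, norm_mul, Complex.norm_exp]
    have h6 := low _ (pow_Ex hz hM)
    have h7 : 0 < ((((1 - Real.log r₀ : ℝ) : ℂ) + l (z ^ M)) / M).re := by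
      rw [Complex.div_natCast_re, Complex.add_re, Complex.ofReal_re]
      apply div_pos _ hMr
      linarith
    have h8 : 1 < Real.exp ((((1 - Real.log r₀ : ℝ) : ℂ) + l (z ^ M)) / M).re := Real.one_lt_exp_iff.2 h7
    nlinarith)
  have h6 : TH l Φ (1 - Real.log r₀) M h₁ = fun z => h₁ (cexp (((1 - Real.log r₀ : ℝ) : ℂ) / M) *
      (z * cexp (l (z ^ M) / M))) + (Φ (z ^ M) - (1 - 1 / (M : ℂ)) * l (z ^ M)) := by
    funext z
    rw [hρg z]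
    rfl
  rw [h6]
  exact ⟨_, h5⟩

end Pool.Agent.V5helper27.BM
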