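import Pool.Agent.V5helper27.BM.Asm
import Pool.Agent.V5helper27.BM.DAT1
import Pool.Agent.V5helper62.BM.FIN
import Pool.Agent.V5helper98.BM.DAT2
import Pool.Agent.V5helper98.BM.COMP
import Pool.Agent.V5helper85.BM.SM
import Pool.Agent.V5helper85.BM.INT
import Pool.Agent.V5helper3.BM.SEQ
import Pool.Agent.V5helper23.BM.KM1
import Pool.Agent.V5helper83.BM.KM2
import Pool.Agent.V5helper14.BM.ITER
import Pool.Agent.V5helper6.BM.GOL

set_option autoImplicit false

/-! # Project BM: the theorem -/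

open Complex Filter Topology Set Metric MeasureTheory

namespace Pool.Agent.V5helper27.BM

theorem dat_all : S_dat :=
  Pool.Agent.V5helper98.BM.dat Pool.Agent.V5helper23.BM.km1 Pool.Agent.V5helper83.BM.km2 Pool.Agent.V5helper6.BM.gol
    Pool.Agent.V5helper6.BM.gol1 Pool.Agent.V5helper6.BM.lip Pool.Agent.V5helper98.BM.comp
    (dat1 Pool.Agent.V5helper23.BM.km1 Pool.Agent.V5helper6.BM.gol1 Pool.Agent.V5helper98.BM.comp)

theorem sm_all : S_sm :=
  Pool.Agent.V5helper85.BM.sm dat_all Pool.Agent.V5helper6.BM.lip Pool.Agent.V5helper85.BM.intl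
    Pool.Agent.V5helper85.BM.subl Pool.Agent.V5helper85.BM.rot

theorem fin_all (hc : S_close) : S_fin :=
  Pool.Agent.V5helper62.BM.finl (Pool.Agent.V5helper14.BM.iterl sm_all
    (Pool.Agent.V5helper3.BM.seql Pool.Agent.V5helper6.BM.lip hc)) Pool.Agent.V5helper6.BM.lip Pool.Agent.V5helper6.BM.gol1

theorem binder_sma (hc : S_close) (h : Binder) : SMa := q2_sma (fin_all hc h)

end Pool.Agent.V5helper27.BM
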