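import Pool.Agent.V5helper27.BM.Sharp
import Pool.Agent.V5helper85.BM.CLOSE

set_option autoImplicit false

/-! # Project BM: one exponent at a time, lower growth exponents of single functions suffice -/

open Complex Filter Topology Set Metric MeasureTheory

namespace Pool.Agent.V5helper27.BM

open Pool.Agent.V5helper62.BM (norm_pt cont_h pm_le big step q_ge q_gt sqrt_bd)
open Pool.Agent.V5helper14.BM (isSig_id pm_nonneg pm_zero pm_close pmean_eq q_le Hs_isSig)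

/-- for every single `ψ ∈ Σ` the lower growth exponent of the means of `|ψ'^t|` is at most `β` -/
def Low (t : ℂ) (β : ℝ) : Prop := ∀ ψ h : ℂ → ℂ, IsSig ψ h → ∀ ε : ℝ, 0 < ε → ∃ K : ℝ, ∀ R₀ : ℝ, 1 < R₀ →
  ∃ R : ℝ, 1 < R ∧ R < R₀ ∧ pmean t R h ≤ K * (R ^ 2 / (R ^ 2 - 1)) ^ (β + ε)

/-- `a ≤ b` if `a ^ n ≤ D b ^ n` for infinitely many `n` -/
theorem le_of_pow_le' {a b D : ℝ} (hb : 0 < b) (h : ∀ N : ℕ, ∃ n : ℕ, N ≤ n ∧ a ^ n ≤ D * b ^ n) : a ≤ b := by
  by_contra hab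
  push Not at hab
  have h1 : 1 < a / b := (one_lt_div hb).2 hab
  have h2 := tendsto_pow_atTop_atTop_of_one_lt h1
  obtain ⟨N, hN⟩ := eventually_atTop.1 (h2.eventually_gt_atTop D)
  obtain ⟨n, hn1, hn2⟩ := h N
  have h3 := hN n hn1
  rw [div_pow, lt_div_iff₀ (pow_pos hb n)] at h3
  linarith

theorem itG (hsm : S_sm) (hseq : S_seq) (hl : S_lip) : ∃ (C : ℝ) (m₀ : ℕ), 0 ≤ C ∧ 2 ≤ m₀ ∧
    ∀ (t : ℂ) (β : ℝ), 0 ≤ β → Low t β → ∀ ψ h : ℂ → ℂ, IsSig ψ h → ∀ m : ℕ, m₀ ≤ m →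
      pm t (1 / m) h ≤ Real.exp (C + C * ‖t‖ + C * ‖t‖ * Real.sqrt (Real.log m)) * (m : ℝ) ^ β := by
  obtain ⟨A, C, δ, hC, hδ, H⟩ := hsm
  obtain ⟨m₁, hm₁⟩ := exists_nat_gt (1 / δ)
  refine ⟨C, max 2 m₁, hC, le_max_left _ _, ?_⟩
  intro t β hβ hB ψ h hs m hm
  have hm2 : 2 ≤ m := (le_max_left _ _).trans hm
  have hmm : m₁ ≤ m := (le_max_right _ _).trans hm
  have hm0 : (0 : ℝ) < m := by positivity
  have hm2' : (2 : ℝ) ≤ m := by exact_mod_cast hm2
  have hx0 : (0 : ℝ) < 1 / m := by positivity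
  have hx1 : (1 : ℝ) / m < 1 := by
    rw [div_lt_one hm0]
    linarith
  have hxδ : (1 : ℝ) / m < δ := by
    have : 1 / δ < m := hm₁.trans_le (by exact_mod_cast hmm)
    rw [div_lt_iff₀ hδ] at this
    rw [div_lt_iff₀ hm0]
    linarith
  obtain ⟨l, Φ, hD, hM⟩ := H ψ h hs t (1 / m) hx0 hxδ
  set E : ℝ := Real.exp (-C - C * ‖t‖ * (1 + Real.sqrt (LR (Real.exp (1 / m))))) with hE
  have hE0 : 0 < E := Real.exp_pos _
  set P : ℝ := pm t (1 / m) h with hP
  have hP0 : 0 ≤ P := pm_nonneg _ _ _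
  have hEP : 0 ≤ E * P := by positivity
  -- the induction
  have hind : ∀ n : ℕ, (E * P) ^ n ≤ pm t (1 / (m : ℝ) ^ (n + 1)) (Hs l Φ A m n) := by
    intro n
    induction n with
    | zero =>
      rw [pow_zero]
      exact (pm_zero t _).symm.le
    | succ n ih =>
      have h2 : 2 ≤ m ^ (n + 1) := by
        calc 2 ≤ m := hm2
          _ = m ^ 1 := (pow_one m).symm
          _ ≤ m ^ (n + 1) := Nat.pow_le_pow_right (by omega) (by omega)
      obtain ⟨ψ₁, hψ₁⟩ := Hs_isSig hD hm2 n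
      have h3 := hM (m ^ (n + 1)) h2 ψ₁ _ hψ₁
      push_cast at h3
      rw [show (1 : ℝ) / m / (m : ℝ) ^ (n + 1) = 1 / (m : ℝ) ^ (n + 1 + 1) by
        rw [div_div, ← pow_succ']] at h3
      calc (E * P) ^ (n + 1) = E * (E * P) ^ n * P := by ring
        _ ≤ E * pm t (1 / (m : ℝ) ^ (n + 1)) (Hs l Φ A m n) * P := by gcongr
        _ ≤ _ := h3
  obtain ⟨ψ', h', hs', C', hC'⟩ := hseq l Φ A hD m hm2
  have hlow : ∀ n : ℕ, Real.exp (-(‖t‖ * C')) * (E * P) ^ n ≤ pm t (1 / (m : ℝ) ^ (n + 1)) h' := by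
    intro n
    obtain ⟨ψ₁, hψ₁⟩ := Hs_isSig hD hm2 n
    refine le_trans (mul_le_mul_of_nonneg_left (hind n) (Real.exp_pos _).le) ?_
    exact pm_close hψ₁ hs' (by positivity) t fun z hz => hC' n z hz
  -- the growth exponent of the single function `ψ'`
  have hbd : ∀ ε : ℝ, 0 < ε → E * P ≤ (m : ℝ) ^ (β + ε) := by
    intro ε hε
    obtain ⟨K, hK⟩ := hB ψ' h' hs' ε hε
    set α : ℝ := β + ε with hα
    have hα0 : 0 < α := by positivity
    refine le_of_pow_le' (D := Real.exp (‖t‖ * C') * (Real.exp (‖t‖ * (3 * m)) * (|K| * ((m : ℝ) ^ α) ^ 2)))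
      (Real.rpow_pos_of_pos hm0 _) fun N => ?_
    have hy0 : (0 : ℝ) < 1 / (m : ℝ) ^ (N + 1) := by positivity
    obtain ⟨R, hR1, hR2, hR3⟩ := hK (Real.exp (1 / (m : ℝ) ^ (N + 1))) (Real.one_lt_exp_iff.2 hy0)
    set x : ℝ := Real.log R with hx
    have hRpos : 0 < R := by linarith
    have hRx : R = Real.exp x := (Real.exp_log hRpos).symm
    have hxpos : 0 < x := Real.log_pos hR1
    have hxN : x < (1 / (m : ℝ)) ^ (N + 1) := by
      rw [one_div_pow, hx, Real.log_lt_iff_lt_exp hRpos]; exact hR2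
    have hxle1 : x ≤ 1 := hxN.le.trans (pow_le_one₀ hx0.le hx1.le)
    obtain ⟨k, hk1, hk2⟩ := exists_nat_pow_near_of_lt_one hxpos hxle1 hx0 hx1
    have hkN : N + 1 < k + 1 := by
      by_contra hcon
      have hcon' : k + 1 ≤ N + 1 := not_lt.1 hcon
      have := pow_le_pow_of_le_one hx0.le hx1.le hcon'
      linarith
    obtain ⟨n, rfl⟩ : ∃ n, k = n + 1 := ⟨k - 1, by omega⟩
    refine ⟨n, by omega, ?_⟩
    rw [one_div_pow] at hk1 hk2
    set y : ℝ := 1 / (m : ℝ) ^ (n + 1) with hy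
    have hypos : 0 < y := by positivity
    have hyx : y ≤ m * x := by
      have h1 : (1 : ℝ) / (m : ℝ) ^ (n + 1 + 1) * m = y := by
        rw [hy, pow_succ (m : ℝ) (n + 1)]
        field_simp
      have h2 := mul_lt_mul_of_pos_right hk1 hm0
      rw [h1] at h2
      linarith
    have hx12 : x ≤ 1 / 2 := by
      have h1 : (1 / (m : ℝ)) ^ (N + 1) ≤ (1 / (m : ℝ)) ^ 1 := pow_le_pow_of_le_one hx0.le hx1.le (by omega)
      rw [pow_one] at h1
      have h2 : 1 / (m : ℝ) ≤ 1 / 2 := one_div_le_one_div_of_le two_pos hm2'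
      linarith
    -- from `x` to `y`
    have hstep : pm t y h' ≤ Real.exp (‖t‖ * (3 * m)) * pm t x h' := by
      refine pm_le hs' hypos hxpos t t _ fun θ => ?_
      have h3 := hl ψ' h' hs' x hxpos (y + θ * I) (x + θ * I) (by simpa using hk2) (by simp)
      have h4 : ((y:ℂ) + θ * I) - ((x : ℂ) + θ * I) = ((y - x : ℝ) : ℂ) := by
        push_cast; ring
      rw [h4, Complex.norm_real, Real.norm_eq_abs, abs_of_nonneg (by linarith)] at h3
      have h5 : 3 / x * (y - x) ≤ 3 * m := by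
        rw [div_mul_eq_mul_div, div_le_iff₀ hxpos]
        nlinarith
      have h6 : (t * h' (cexp (y + θ * I))).re - (t * h' (cexp (x + θ * I))).re ≤
          ‖t‖ * ‖h' (cexp (y + θ * I)) - h' (cexp (x + θ * I))‖ := by
        rw [← Complex.sub_re, ← mul_sub, ← norm_mul]
        exact Complex.re_le_norm _
      have h7 : ‖t‖ * ‖h' (cexp (y + θ * I)) - h' (cexp (x + θ * I))‖ ≤ ‖t‖ * (3 * m) :=
        mul_le_mul_of_nonneg_left (h3.trans h5) (norm_nonneg t)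
      linarith
    rw [hRx, pmean_eq] at hR3
    obtain ⟨hq0, hq⟩ := q_le hxpos hx12
    have hqm : Real.exp x ^ 2 / (Real.exp x ^ 2 - 1) ≤ (m : ℝ) ^ (n + 1 + 1) := by
      refine hq.trans ?_
      rw [div_le_iff₀ hxpos]
      have h1 : (1 : ℝ) / (m : ℝ) ^ (n + 1 + 1) * (m : ℝ) ^ (n + 1 + 1) = 1 := by field_simp
      have h2 := mul_lt_mul_of_pos_right hk1 (show (0:ℝ) < (m : ℝ) ^ (n + 1 + 1) by positivity)
      rw [h1] at h2
      linarith
    have h2 : K * (Real.exp x ^ 2 / (Real.exp x ^ 2 - 1)) ^ α ≤ |K| * ((m : ℝ) ^ (n + 1 + 1)) ^ α :=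
      mul_le_mul (le_abs_self K) (Real.rpow_le_rpow hq0.le hqm hα0.le) (Real.rpow_nonneg hq0.le _) (abs_nonneg K)
    have h3 : ((m : ℝ) ^ (n + 1 + 1)) ^ α = ((m : ℝ) ^ α) ^ n * ((m : ℝ) ^ α) ^ 2 := by
      rw [← Real.rpow_natCast, ← Real.rpow_mul hm0.le, mul_comm, Real.rpow_mul hm0.le, Real.rpow_natCast]
      ring
    have h4 := (hlow n).trans (hstep.trans (mul_le_mul_of_nonneg_left (hR3.trans h2) (Real.exp_pos _).le))
    rw [h3, Real.exp_neg, inv_mul_le_iff₀ (Real.exp_pos _)] at h4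
    refine h4.trans (le_of_eq ?_)
    ring
  have hlim : E * P ≤ (m : ℝ) ^ β := by
    have h1 : Tendsto (fun ε : ℝ => (m : ℝ) ^ (β + ε)) (𝓝[>] 0) (𝓝 ((m : ℝ) ^ β)) := by
      have h2 : ContinuousAt (fun ε : ℝ => (m : ℝ) ^ (β + ε)) 0 := by
        refine ContinuousAt.rpow continuousAt_const (by fun_prop) (Or.inl hm0.ne')
      have h3 := h2.tendsto
      rw [add_zero] at h3
      exact h3.mono_left nhdsWithin_le_nhds
    refine ge_of_tendsto h1 ?_
    filter_upwards [self_mem_nhdsWithin] with ε hε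
    exact hbd ε hε
  -- the constant
  have hLR : LR (Real.exp (1 / m)) ≤ Real.log m := by
    obtain ⟨hq0, hq⟩ := q_le hx0 (one_div_le_one_div_of_le two_pos hm2')
    rw [one_div_one_div] at hq
    exact Real.log_le_log hq0 hq
  have hsq : Real.sqrt (LR (Real.exp (1 / m))) ≤ Real.sqrt (Real.log m) := Real.sqrt_le_sqrt hLR
  have hP1 : P ≤ E⁻¹ * (m : ℝ) ^ β := by
    rw [le_inv_mul_iff₀ hE0]
    exact hlim
  refine hP1.trans (mul_le_mul_of_nonneg_right ?_ (Real.rpow_nonneg hm0.le _))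
  rw [hE, ← Real.exp_neg]
  apply Real.exp_le_exp.2
  have ht0 := norm_nonneg t
  have e1 : C * ‖t‖ * Real.sqrt (LR (Real.exp (1 / m))) ≤ C * ‖t‖ * Real.sqrt (Real.log m) :=
    mul_le_mul_of_nonneg_left hsq (by positivity)
  nlinarith

/-- **the general theorem**: one exponent `t` at a time, with an absolute constant -/
theorem gen (hsm : S_sm) (hseq : S_seq) (hl : S_lip) (hg : S_gol1) : ∃ C : ℝ, ∀ (t : ℂ) (β : ℝ), 0 ≤ β → Low t β →
    ∀ R : ℝ, 1 < R → ∀ ψ h : ℂ → ℂ, IsSig ψ h →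
      pmean t R h ≤ Real.exp (C + C * ‖t‖ + C * ‖t‖ * Real.sqrt (LR R)) * (R ^ 2 / (R ^ 2 - 1)) ^ β := by
  obtain ⟨C, m₀, hC, hm₀, hit⟩ := itG hsm hseq hl
  have hm₀0 : (0:ℝ) < m₀ := by
    have : (2:ℝ) ≤ m₀ := by exact_mod_cast hm₀
    linarith
  set R₀ : ℝ := Real.exp (1 / m₀) with hR₀
  have hR₀1 : 1 < R₀ := Real.one_lt_exp_iff.2 (by positivity)
  have hL0 : 0 < LR R₀ := LR_pos' hR₀1
  have hsq0 : 0 ≤ Real.sqrt (LR R₀) := Real.sqrt_nonneg _
  refine ⟨3 * C + 7 + Real.sqrt (LR R₀), fun t β hβ hB R hR ψ h hS => ?_⟩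
  set D : ℝ := 3 * C + 7 + Real.sqrt (LR R₀) with hD
  have hD0 : 0 ≤ D := by positivity
  have ht0 := norm_nonneg t
  set x : ℝ := Real.log R with hx
  have hRpos : 0 < R := by linarith
  have hRx : R = Real.exp x := (Real.exp_log hRpos).symm
  have hx0 : 0 < x := Real.log_pos hR
  rw [hRx, pmean_eq]
  have hq1 : 1 < (Real.exp x) ^ 2 / ((Real.exp x) ^ 2 - 1) := q_gt hx0
  have hLx : 0 < LR (Real.exp x) := LR_pos' (Real.one_lt_exp_iff.2 hx0)
  have hLR : LR (Real.exp x) = Real.log ((Real.exp x) ^ 2 / ((Real.exp x) ^ 2 - 1)) := rfl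
  set q : ℝ := (Real.exp x) ^ 2 / ((Real.exp x) ^ 2 - 1) with hq
  have hq0 : 0 < q := by linarith
  have hlogq : 0 ≤ Real.log q := Real.log_nonneg hq1.le
  have hgol := pm_gol hg hS hx0 t
  rcases le_or_gt ‖t‖ β with hbt | hbt
  · -- trivial
    refine hgol.trans ?_
    have h1 : Real.exp (‖t‖ * LR (Real.exp x)) ≤ q ^ β := by
      rw [Real.rpow_def_of_pos hq0, hLR]
      apply Real.exp_le_exp.2
      rw [mul_comm]
      gcongr
    refine h1.trans (le_mul_of_one_le_left (Real.rpow_nonneg hq0.le _) (Real.one_le_exp ?_))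
    positivity
  rcases lt_or_ge x (1 / m₀) with hxm | hxm
  · have hx1 : x ≤ 1 := by
      have : 1 / (m₀:ℝ) ≤ 1 := by
        rw [div_le_one hm₀0]
        have : (2:ℝ) ≤ m₀ := by exact_mod_cast hm₀
        linarith
      linarith
    set m : ℕ := ⌈1 / x⌉₊ with hmdef
    have hm1 : 1 / x ≤ m := Nat.le_ceil _
    have hm2 : (m:ℝ) < 1 / x + 1 := Nat.ceil_lt_add_one (by positivity)
    have hmm : (m₀:ℝ) ≤ m := by
      have : (m₀:ℝ) ≤ 1 / x := by
        rw [le_div_iff₀ hx0]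
        have := (lt_div_iff₀ hm₀0).1 hxm
        linarith
      linarith
    have hmm' : m₀ ≤ m := by exact_mod_cast hmm
    have hm0 : (0:ℝ) < m := by linarith
    have hmpos : 0 < m := by exact_mod_cast hm0
    have h1 : 1 / (m:ℝ) ≤ x := by
      rw [div_le_iff₀ hm0]
      rw [div_le_iff₀ hx0] at hm1
      linarith
    have h2 : (m:ℝ) * x - 1 ≤ x := by
      have : (m:ℝ) * x < (1 / x + 1) * x := mul_lt_mul_of_pos_right hm2 hx0
      have e : (1 / x + 1) * x = 1 + x := by field_simp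
      linarith
    have h3 := step hl hS hx0 hx1 hmpos h1 h2 t
    have h4 := hit t β hβ hB ψ h hS m hmm'
    rw [hLR]
    have hmq : (m:ℝ) ≤ 4 * q := by
      have h5 : 1 / (2 * x) ≤ q := q_ge hx0
      have h6 : 1 / x = 2 * (1 / (2 * x)) := by field_simp
      have h7 : 1 ≤ 1 / x := by rw [le_div_iff₀ hx0]; linarith
      linarith
    have hlog4 : Real.log 4 ≤ 4 := by
      have := Real.log_le_sub_one_of_pos (show (0:ℝ) < 4 by norm_num)
      linarith
    have hlog40 : 0 ≤ Real.log 4 := Real.log_nonneg (by norm_num)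
    have hlogm : Real.log m ≤ 4 + Real.log q := by
      have h5 : Real.log m ≤ Real.log (4 * q) := Real.log_le_log hm0 hmq
      rw [Real.log_mul (by norm_num) hq0.ne'] at h5
      linarith
    have hsq : Real.sqrt (Real.log m) ≤ 2 + Real.sqrt (Real.log q) := sqrt_bd hlogq hlogm
    have hpow : (m:ℝ) ^ β ≤ Real.exp (4 * ‖t‖) * q ^ β := by
      calc (m:ℝ) ^ β ≤ (4 * q) ^ β := Real.rpow_le_rpow hm0.le hmq hβ
        _ = 4 ^ β * q ^ β := Real.mul_rpow (by norm_num) hq0.le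
        _ ≤ Real.exp (4 * ‖t‖) * q ^ β := by
          apply mul_le_mul_of_nonneg_right _ (Real.rpow_nonneg hq0.le _)
          rw [Real.rpow_def_of_pos (by norm_num)]
          apply Real.exp_le_exp.2
          nlinarith
    calc pm t x h ≤ Real.exp (3 * ‖t‖) * pm t (1 / m) h := h3
      _ ≤ Real.exp (3 * ‖t‖) * (Real.exp (C + C * ‖t‖ + C * ‖t‖ * Real.sqrt (Real.log m)) *
            (Real.exp (4 * ‖t‖) * q ^ β)) := by
          apply mul_le_mul_of_nonneg_left _ (Real.exp_pos _).le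
          exact h4.trans (mul_le_mul_of_nonneg_left hpow (Real.exp_pos _).le)
      _ = Real.exp (3 * ‖t‖ + (C + C * ‖t‖ + C * ‖t‖ * Real.sqrt (Real.log m)) + 4 * ‖t‖) * q ^ β := by
          rw [Real.exp_add (3 * ‖t‖ + (C + C * ‖t‖ + C * ‖t‖ * Real.sqrt (Real.log m))) (4 * ‖t‖),
            Real.exp_add (3 * ‖t‖) (C + C * ‖t‖ + C * ‖t‖ * Real.sqrt (Real.log m))]
          ring
      _ ≤ _ := by
          apply mul_le_mul_of_nonneg_right _ (Real.rpow_nonneg hq0.le _)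
          apply Real.exp_le_exp.2
          have h5 : C * ‖t‖ * Real.sqrt (Real.log m) ≤ C * ‖t‖ * (2 + Real.sqrt (Real.log q)) := by gcongr
          have h6 : C * ‖t‖ * Real.sqrt (Real.log q) ≤ D * ‖t‖ * Real.sqrt (Real.log q) := by
            gcongr
            rw [hD]
            linarith
          have h7 : C ≤ D := by rw [hD]; linarith
          have h8 : 3 * ‖t‖ + C * ‖t‖ + 2 * (C * ‖t‖) + 4 * ‖t‖ ≤ D * ‖t‖ := by
            rw [hD]
            nlinarith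
          nlinarith
  · refine hgol.trans ?_
    have h1 : LR (Real.exp x) ≤ Real.sqrt (LR R₀) * Real.sqrt (LR (Real.exp x)) := by
      have h2 : LR (Real.exp x) ≤ LR R₀ := LR_anti' hR₀1 (Real.exp_le_exp.2 hxm)
      have h3 : Real.sqrt (LR (Real.exp x)) ≤ Real.sqrt (LR R₀) := Real.sqrt_le_sqrt h2
      calc LR (Real.exp x) = Real.sqrt (LR (Real.exp x)) * Real.sqrt (LR (Real.exp x)) :=
            (Real.mul_self_sqrt hLx.le).symm
        _ ≤ _ := by gcongr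
    have h4 : 1 ≤ q ^ β := Real.one_le_rpow hq1.le hβ
    calc Real.exp (‖t‖ * LR (Real.exp x)) ≤ Real.exp (D + D * ‖t‖ + D * ‖t‖ * Real.sqrt (LR (Real.exp x))) := by
          apply Real.exp_le_exp.2
          have h5 : ‖t‖ * LR (Real.exp x) ≤ ‖t‖ * (Real.sqrt (LR R₀) * Real.sqrt (LR (Real.exp x))) := by
            gcongr
          have h6 : Real.sqrt (LR R₀) ≤ D := by rw [hD]; linarith
          have h7 : ‖t‖ * (Real.sqrt (LR R₀) * Real.sqrt (LR (Real.exp x))) ≤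
              ‖t‖ * (D * Real.sqrt (LR (Real.exp x))) := by
            gcongr
          have h8 : 0 ≤ D * ‖t‖ := by positivity
          nlinarith
      _ ≤ _ := le_mul_of_one_le_right (Real.exp_pos _).le h4

theorem seq_all : S_seq := Pool.Agent.V5helper3.BM.seql Pool.Agent.V5helper6.BM.lip
  (Pool.Agent.V5helper85.BM.closel Pool.Agent.V5helper6.BM.gol Pool.Agent.V5helper6.BM.gol1)

theorem gen_all : ∃ C : ℝ, ∀ (t : ℂ) (β : ℝ), 0 ≤ β → Low t β →
    ∀ R : ℝ, 1 < R → ∀ ψ h : ℂ → ℂ, IsSig ψ h →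
      pmean t R h ≤ Real.exp (C + C * ‖t‖ + C * ‖t‖ * Real.sqrt (LR R)) * (R ^ 2 / (R ^ 2 - 1)) ^ β :=
  gen sm_all seq_all Pool.Agent.V5helper6.BM.lip Pool.Agent.V5helper6.BM.gol1

theorem itC_of_low (h : ∀ t : ℂ, ‖t‖ ≤ 2 → Low t (‖t‖ ^ 2 / 4)) : ItC := by
  obtain ⟨C, m₀, hC, hm₀, hit⟩ := itG sm_all seq_all Pool.Agent.V5helper6.BM.lip
  refine ⟨3 * C, m₀, by positivity, hm₀, fun ψ g hS t ht m hm => ?_⟩
  refine (hit t (‖t‖ ^ 2 / 4) (by positivity) (h t ht) ψ g hS m hm).trans ?_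
  apply mul_le_mul_of_nonneg_right _ (Real.rpow_nonneg (Nat.cast_nonneg m) _)
  apply Real.exp_le_exp.2
  have h1 : C * ‖t‖ ≤ C * 2 := mul_le_mul_of_nonneg_left ht hC
  have h2 : 0 ≤ C * ‖t‖ * Real.sqrt (Real.log m) := by positivity
  nlinarith

theorem low_sharp (h : ∀ t : ℂ, ‖t‖ ≤ 2 → Low t (‖t‖ ^ 2 / 4)) : Sharp :=
  it_sharp Pool.Agent.V5helper6.BM.lip Pool.Agent.V5helper6.BM.gol1 (itC_of_low h)

end Pool.Agent.V5helper27.BM
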