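import Pool.Agent.V5helper27.BM.Conv

set_option autoImplicit false

/-! # Project BM: the equivalences for every critical constant `A` -/

open Complex Filter Topology Set Metric MeasureTheory

namespace Pool.Agent.V5helper27.BM

open Pool.Agent.V5helper62.BM (pmean_eq norm_pt cont_h pm_le q_gt)

section

variable (A : ℝ)

def SMaA : Prop := ∀ a : ℝ, 0 < a → a < A → ∃ C R₀ : ℝ, 1 < R₀ ∧ ∀ R : ℝ, 1 < R → R < R₀ →
  ∀ ψ h : ℂ → ℂ, IsSig ψ h → marshall a R h ≤ C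

def SMsA : Prop := ∀ a : ℝ, 0 < a → a < A → ∀ ψ h : ℂ → ℂ, IsSig ψ h → ∃ C R₀ : ℝ, 1 < R₀ ∧
  ∀ R : ℝ, 1 < R → R < R₀ → marshall a R h ≤ C

def SMlA : Prop := ∀ a : ℝ, 0 < a → a < A → ∀ ψ h : ℂ → ℂ, IsSig ψ h → ∃ C : ℝ, ∀ R₀ : ℝ, 1 < R₀ →
  ∃ R : ℝ, 1 < R ∧ R < R₀ ∧ marshall a R h ≤ C

def UpA : Prop := ∀ t : ℂ, ‖t‖ ≤ 2 * A → ∀ ψ h : ℂ → ℂ, IsSig ψ h → UpR t (‖t‖ ^ 2 / (4 * A)) h

def LowA : Prop := ∀ t : ℂ, ‖t‖ ≤ 2 * A → ∀ ψ h : ℂ → ℂ, IsSig ψ h → LowR t (‖t‖ ^ 2 / (4 * A)) h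

def SharpA : Prop := ∃ C : ℝ, ∀ R : ℝ, 1 < R → ∀ ψ h : ℂ → ℂ, IsSig ψ h → ∀ t : ℂ,
  pmean t R h ≤ Real.exp (C + C * ‖t‖ * Real.sqrt (LR R)) * (R ^ 2 / (R ^ 2 - 1)) ^ (‖t‖ ^ 2 / (4 * A))

def SharpMA : Prop := ∃ C : ℝ, ∀ a : ℝ, 0 < a → a < A → ∀ R : ℝ, 1 < R → ∀ ψ h : ℂ → ℂ, IsSig ψ h →
  marshall a R h ≤ Real.exp (C / (A - a))

end

variable {A : ℝ}

theorem bigA (hg : S_gol1) {ψ h : ℂ → ℂ} (hS : IsSig ψ h) {x : ℝ} (hx : 0 < x) (t : ℂ) {T : ℝ} (hT : 0 < T)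
    (ht : T ≤ ‖t‖) : pm t x h ≤ Real.exp ((‖t‖ - T) * LR (Real.exp x)) * pm ((T / ‖t‖ : ℝ) * t) x h := by
  refine pm_le hS hx hx _ _ _ (fun θ => ?_)
  have hn : 0 < ‖t‖ := by linarith
  set w : ℂ := cexp (x + θ * I) with hw
  have hwn : ‖w‖ = Real.exp x := norm_pt x θ
  have h1 := hg ψ h hS w (by
    show 1 < ‖w‖
    rw [hwn]; exact Real.one_lt_exp_iff.2 hx)
  rw [hwn] at h1
  have h2 : (t * h w).re - (((T / ‖t‖ : ℝ) : ℂ) * t * h w).re ≤ ‖(1 - ((T / ‖t‖ : ℝ) : ℂ)) * t‖ * ‖h w‖ := by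
    rw [← Complex.sub_re, ← norm_mul]
    have : t * h w - ((T / ‖t‖ : ℝ) : ℂ) * t * h w = (1 - ((T / ‖t‖ : ℝ) : ℂ)) * t * h w := by ring
    rw [this]
    exact Complex.re_le_norm _
  have h3 : ‖(1 - ((T / ‖t‖ : ℝ) : ℂ)) * t‖ = ‖t‖ - T := by
    have e : (1 - ((T / ‖t‖ : ℝ) : ℂ)) = ((1 - T / ‖t‖ : ℝ) : ℂ) := by push_cast; ring
    have h4 : 0 ≤ 1 - T / ‖t‖ := by
      rw [sub_nonneg, div_le_one hn]; exact ht
    rw [norm_mul, e, Complex.norm_real, Real.norm_eq_abs, abs_of_nonneg h4]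
    field_simp
  rw [h3] at h2
  have h5 : (‖t‖ - T) * ‖h w‖ ≤ (‖t‖ - T) * LR (Real.exp x) :=
    mul_le_mul_of_nonneg_left h1 (by linarith)
  linarith

theorem lowA_sharpA (hA : 0 < A) (H : LowA A) : SharpA A := by
  obtain ⟨C₀, hC₀⟩ := gen_all
  set C : ℝ := max C₀ 0 with hCdef
  have hC0 : 0 ≤ C := le_max_right _ _
  have hC1 : C₀ ≤ C := le_max_left _ _
  have key : ∀ (t : ℂ), ‖t‖ ≤ 2 * A → ∀ R : ℝ, 1 < R → ∀ ψ h : ℂ → ℂ, IsSig ψ h →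
      pmean t R h ≤ Real.exp (C * (1 + 2 * A) + C * ‖t‖ * Real.sqrt (LR R)) *
        (R ^ 2 / (R ^ 2 - 1)) ^ (‖t‖ ^ 2 / (4 * A)) := by
    intro t ht R hR ψ h hS
    refine (hC₀ t (‖t‖ ^ 2 / (4 * A)) (by positivity) (lowR_low (by positivity) (H t ht)) R hR ψ h hS).trans ?_
    have hR2 : 0 < R ^ 2 - 1 := by nlinarith
    apply mul_le_mul_of_nonneg_right _ (by positivity)
    apply Real.exp_le_exp.2
    have h1 : C₀ * ‖t‖ ≤ C * ‖t‖ := by gcongr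
    have h2 : C * ‖t‖ ≤ C * (2 * A) := by gcongr
    have h3 : C₀ * ‖t‖ * Real.sqrt (LR R) ≤ C * ‖t‖ * Real.sqrt (LR R) := by gcongr
    nlinarith
  refine ⟨C * (1 + 2 * A), fun R hR ψ h hS t => ?_⟩
  have hCC : C ≤ C * (1 + 2 * A) := le_mul_of_one_le_right hC0 (by linarith)
  have hR2 : 0 < R ^ 2 - 1 := by nlinarith
  have hs0 : 0 ≤ Real.sqrt (LR R) := Real.sqrt_nonneg _
  rcases le_or_gt ‖t‖ (2 * A) with ht | ht
  · refine (key t ht R hR ψ h hS).trans ?_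
    apply mul_le_mul_of_nonneg_right _ (by positivity)
    apply Real.exp_le_exp.2
    have h3 : C * ‖t‖ * Real.sqrt (LR R) ≤ C * (1 + 2 * A) * ‖t‖ * Real.sqrt (LR R) := by gcongr
    linarith
  · set x : ℝ := Real.log R with hx
    have hRpos : 0 < R := by linarith
    have hRx : R = Real.exp x := (Real.exp_log hRpos).symm
    have hx0 : 0 < x := Real.log_pos hR
    have hn : 0 < ‖t‖ := by linarith
    have hT : 0 < 2 * A := by linarith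
    have h1 := bigA Pool.Agent.V5helper6.BM.gol1 hS hx0 t hT ht.le
    have ht0 : ‖((2 * A / ‖t‖ : ℝ) : ℂ) * t‖ = 2 * A := by
      rw [norm_mul, Complex.norm_real, Real.norm_eq_abs, abs_of_nonneg (by positivity)]
      field_simp
    have h2 := key (((2 * A / ‖t‖ : ℝ) : ℂ) * t) ht0.le R hR ψ h hS
    rw [ht0, hRx, pmean_eq] at h2
    rw [hRx, pmean_eq]
    have hq1 : 1 < (Real.exp x) ^ 2 / ((Real.exp x) ^ 2 - 1) := q_gt hx0
    set q : ℝ := (Real.exp x) ^ 2 / ((Real.exp x) ^ 2 - 1) with hq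
    have hq0 : 0 < q := by linarith
    have hLR : LR (Real.exp x) = Real.log q := rfl
    have e2 : Real.exp ((‖t‖ - 2 * A) * LR (Real.exp x)) = q ^ (‖t‖ - 2 * A) := by
      rw [Real.rpow_def_of_pos hq0, hLR, mul_comm]
    have e1 : (2 * A) ^ 2 / (4 * A) = A := by
      field_simp
      ring
    rw [e1] at h2
    rw [e2] at h1
    have h8 : q ^ (‖t‖ - 2 * A) * q ^ A ≤ q ^ (‖t‖ ^ 2 / (4 * A)) := by
      rw [← Real.rpow_add hq0]
      apply Real.rpow_le_rpow_of_exponent_le hq1.le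
      rw [le_div_iff₀ (by positivity)]
      nlinarith [sq_nonneg (‖t‖ - 2 * A)]
    set s : ℝ := Real.sqrt (LR (Real.exp x)) with hs
    have hs1 : 0 ≤ s := Real.sqrt_nonneg _
    calc pm t x h ≤ q ^ (‖t‖ - 2 * A) * pm (((2 * A / ‖t‖ : ℝ) : ℂ) * t) x h := h1
      _ ≤ q ^ (‖t‖ - 2 * A) * (Real.exp (C * (1 + 2 * A) + C * (2 * A) * s) * q ^ A) :=
          mul_le_mul_of_nonneg_left h2 (Real.rpow_nonneg hq0.le _)
      _ = Real.exp (C * (1 + 2 * A) + C * (2 * A) * s) * (q ^ (‖t‖ - 2 * A) * q ^ A) := by ring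
      _ ≤ Real.exp (C * (1 + 2 * A) + C * (1 + 2 * A) * ‖t‖ * s) * q ^ (‖t‖ ^ 2 / (4 * A)) := by
          apply mul_le_mul _ h8 (by positivity) (by positivity)
          apply Real.exp_le_exp.2
          have h9 : C * (2 * A) * s ≤ C * (1 + 2 * A) * ‖t‖ * s := by
            gcongr
          linarith

theorem sharpA_sharpMA (hA : 0 < A) (hS : SharpA A) : SharpMA A := by
  obtain ⟨C₀, hC₀⟩ := hS
  set C : ℝ := max C₀ 0 with hCdef
  have hC0 : 0 ≤ C := le_max_right _ _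
  have hC1 : C₀ ≤ C := le_max_left _ _
  refine ⟨C * A + 2 * A ^ 2 * C ^ 2 + 2 * A, fun a ha ha1 R hR ψ h hS => ?_⟩
  have S := (Q90.SM.ext_all ψ h hS).1
  have hR0 : 0 < R⁻¹ := by positivity
  have hR1 : R⁻¹ < 1 := inv_lt_one_of_one_lt₀ hR
  have hL : 0 < LR R := LR_pos' hR
  have hq : 0 < R ^ 2 / (R ^ 2 - 1) := by
    have : 0 < R ^ 2 - 1 := by nlinarith
    positivity
  have hd : 0 < A - a := by linarith
  set L : ℝ := LR R with hLdef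
  have e0 : marshall a R h = Pool.Agent.TH325.SI.em (Pool.Agent.W677.Mar.hat h 0) (1 / (4 * (L / (4 * a)))) R⁻¹ := by
    have h1 := (Q90.SM.ext_all ψ h hS).2.1 a R hR
    have h2 : marshall a R h = Q90.SM.marshall a R h := rfl
    rw [h2, h1]
    congr 1
    rw [← Pool.Agent.TH325.SI.log_eq hR]
    show a / L = _
    field_simp
  rw [e0]
  have eD : L / (4 * a) - (L / (4 * A) + L * (A - a) / (8 * a * A)) = L * (A - a) / (8 * a * A) := by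
    field_simp
    ring
  have key := Q90.SM.gavg Q90.SM.gauss (Pool.Agent.W677.Mar.hat h 0) S.dH R⁻¹ hR0 hR1
    (Real.exp (C + 2 * a * A * C ^ 2 / (A - a))) (L / (4 * A) + L * (A - a) / (8 * a * A)) (L / (4 * a))
    (Real.exp_pos _).le
    (by
      have h2 : 0 < L * (A - a) / (8 * a * A) := by positivity
      linarith) (by positivity)
    (fun t => by
      rw [← (Q90.SM.ext_all ψ h hS).2.2 t R hR]
      have h1 := hC₀ R hR ψ h hS t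
      refine h1.trans ?_
      rw [Real.rpow_def_of_pos hq, ← Real.exp_add, ← Real.exp_add]
      apply Real.exp_le_exp.2
      have e1 : Real.log (R ^ 2 / (R ^ 2 - 1)) = L := rfl
      rw [e1]
      set s : ℝ := Real.sqrt L with hs
      have hs2 : s ^ 2 = L := Real.sq_sqrt hL.le
      have hs0 : 0 ≤ s := Real.sqrt_nonneg _
      have h2 : C₀ * ‖t‖ * s ≤ C * ‖t‖ * s := by gcongr
      have h3 : C * ‖t‖ * s ≤ 2 * a * A * C ^ 2 / (A - a) + L * (A - a) / (8 * a * A) * ‖t‖ ^ 2 := by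
        rw [← hs2]
        have h4 : 2 * a * A * C ^ 2 / (A - a) + s ^ 2 * (A - a) / (8 * a * A) * ‖t‖ ^ 2 - C * ‖t‖ * s =
            (4 * a * A * C - (A - a) * ‖t‖ * s) ^ 2 / (8 * a * A * (A - a)) := by
          generalize A - a = d at hd
          field_simp
          ring
        have h5 : 0 ≤ (4 * a * A * C - (A - a) * ‖t‖ * s) ^ 2 / (8 * a * A * (A - a)) := by positivity
        linarith
      have h6 : L * (‖t‖ ^ 2 / (4 * A)) = L / (4 * A) * ‖t‖ ^ 2 := by ring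
      nlinarith)
  refine key.trans ?_
  rw [eD]
  have e3 : Real.exp (C + 2 * a * A * C ^ 2 / (A - a)) * (L / (4 * a)) / (L * (A - a) / (8 * a * A)) =
      Real.exp (C + 2 * a * A * C ^ 2 / (A - a)) * (2 * A / (A - a)) := by
    generalize Real.exp (C + 2 * a * A * C ^ 2 / (A - a)) = E
    have h1 : L ≠ 0 := hL.ne'
    generalize A - a = d at hd
    field_simp
    ring
  rw [e3]
  have h1 : 2 * A / (A - a) ≤ Real.exp (2 * A / (A - a)) := by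
    have h2 := Real.add_one_le_exp (2 * A / (A - a))
    linarith
  calc Real.exp (C + 2 * a * A * C ^ 2 / (A - a)) * (2 * A / (A - a)) ≤
        Real.exp (C + 2 * a * A * C ^ 2 / (A - a)) * Real.exp (2 * A / (A - a)) := by gcongr
    _ = Real.exp (C + 2 * a * A * C ^ 2 / (A - a) + 2 * A / (A - a)) := (Real.exp_add _ _).symm
    _ ≤ _ := by
        apply Real.exp_le_exp.2
        rw [le_div_iff₀ hd]
        have h6 : (C + 2 * a * A * C ^ 2 / (A - a) + 2 * A / (A - a)) * (A - a) =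
            C * (A - a) + 2 * a * A * C ^ 2 + 2 * A := by
          field_simp
        rw [h6]
        have h7 : C * (A - a) ≤ C * A := by gcongr; linarith
        have h8 : 2 * a * A * C ^ 2 ≤ 2 * A ^ 2 * C ^ 2 := by
          have : a * A ≤ A ^ 2 := by nlinarith
          nlinarith [sq_nonneg C]
        linarith

theorem sharpMA_smaA (h : SharpMA A) : SMaA A := by
  obtain ⟨C, hC⟩ := h
  exact fun a ha ha1 => ⟨Real.exp (C / (A - a)), 2, one_lt_two, fun R hR _ ψ h hS => hC a ha ha1 R hR ψ h hS⟩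

theorem smaA_smsA (h : SMaA A) : SMsA A := by
  intro a ha ha1 ψ g hS
  obtain ⟨C, R₀, hR₀, hC⟩ := h a ha ha1
  exact ⟨C, R₀, hR₀, fun R hR hR' => hC R hR hR' ψ g hS⟩

theorem smsA_smlA (H : SMsA A) : SMlA A := by
  intro a ha ha1 ψ h hS
  obtain ⟨C, R₁, hR₁, hC⟩ := H a ha ha1 ψ h hS
  refine ⟨C, fun R₀ hR₀ => ?_⟩
  obtain ⟨R, h1, h2⟩ := exists_between (lt_min hR₀ hR₁)
  exact ⟨R, h1, h2.trans_le (min_le_left _ _), hC R h1 (h2.trans_le (min_le_right _ _))⟩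

/-- at one radius -/
theorem one_radius (hA : 0 < A) {t : ℂ} (ht : ‖t‖ ≤ 2 * A) {ψ g : ℂ → ℂ} (hS : IsSig ψ g) {ε : ℝ} (hε : 0 < ε) {C R : ℝ}
    (h1 : 1 < R) (h2 : R < 2) (h3 : marshall (1 / (4 * (1 / (4 * A) + ε / (4 * A ^ 2)))) R g ≤ C) :
    pmean t R g ≤ (|C| * 2 ^ (‖t‖ ^ 2 / (4 * A) + ε)) * (R - 1) ^ (-(‖t‖ ^ 2 / (4 * A) + ε)) := by
  set c : ℝ := 1 / (4 * A) + ε / (4 * A ^ 2) with hc
  have hc0 : 0 < c := by positivity
  have hR2 : 0 < R ^ 2 - 1 := by nlinarith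
  have hq1 : 1 ≤ R ^ 2 / (R ^ 2 - 1) := by
    rw [le_div_iff₀ hR2]
    linarith
  have he : c * ‖t‖ ^ 2 ≤ ‖t‖ ^ 2 / (4 * A) + ε := by
    have h5 : ‖t‖ ^ 2 ≤ 4 * A ^ 2 := by
      have := norm_nonneg t
      nlinarith
    have h6 : c * ‖t‖ ^ 2 = ‖t‖ ^ 2 / (4 * A) + ε * (‖t‖ ^ 2 / (4 * A ^ 2)) := by
      rw [hc]
      ring
    have h7 : ‖t‖ ^ 2 / (4 * A ^ 2) ≤ 1 := by
      rw [div_le_one (by positivity)]
      exact h5
    rw [h6]
    nlinarith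
  have h4 := q_pow_le h1 h2 (show 0 ≤ ‖t‖ ^ 2 / (4 * A) + ε by positivity)
  have h6 : 0 ≤ (R ^ 2 / (R ^ 2 - 1)) ^ (c * ‖t‖ ^ 2) := by positivity
  calc pmean t R g ≤ marshall (1 / (4 * c)) R g * (R ^ 2 / (R ^ 2 - 1)) ^ (c * ‖t‖ ^ 2) := pmean_le_marshall hS h1 hc0 t
    _ ≤ |C| * (R ^ 2 / (R ^ 2 - 1)) ^ (c * ‖t‖ ^ 2) := mul_le_mul_of_nonneg_right (h3.trans (le_abs_self C)) h6
    _ ≤ |C| * (2 ^ (‖t‖ ^ 2 / (4 * A) + ε) * (R - 1) ^ (-(‖t‖ ^ 2 / (4 * A) + ε))) :=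
        mul_le_mul_of_nonneg_left ((Real.rpow_le_rpow_of_exponent_le hq1 he).trans h4) (abs_nonneg C)
    _ = _ := by ring

theorem c_lt (hA : 0 < A) {ε : ℝ} (hε : 0 < ε) : 0 < 1 / (4 * (1 / (4 * A) + ε / (4 * A ^ 2))) ∧
    1 / (4 * (1 / (4 * A) + ε / (4 * A ^ 2))) < A := by
  refine ⟨by positivity, ?_⟩
  rw [div_lt_iff₀ (by positivity)]
  have h1 : A * (4 * (1 / (4 * A) + ε / (4 * A ^ 2))) = 1 + ε / A := by
    field_simp
  rw [h1]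
  have : 0 < ε / A := by positivity
  linarith

theorem smsA_upA (hA : 0 < A) (H : SMsA A) : UpA A := by
  intro t ht ψ g hS ε hε
  obtain ⟨h0, h1⟩ := c_lt hA hε
  obtain ⟨C, R₁, hR₁, hC⟩ := H _ h0 h1 ψ g hS
  exact ⟨|C| * 2 ^ (‖t‖ ^ 2 / (4 * A) + ε), min R₁ 2, lt_min hR₁ one_lt_two, fun R h2 h3 =>
    one_radius hA ht hS hε h2 (h3.trans_le (min_le_right _ _)) (hC R h2 (h3.trans_le (min_le_left _ _)))⟩

theorem smlA_lowA (hA : 0 < A) (H : SMlA A) : LowA A := by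
  intro t ht ψ g hS ε hε
  obtain ⟨h0, h1⟩ := c_lt hA hε
  obtain ⟨C, hC⟩ := H _ h0 h1 ψ g hS
  refine ⟨|C| * 2 ^ (‖t‖ ^ 2 / (4 * A) + ε), fun R₀ hR₀ => ?_⟩
  obtain ⟨R, h2, h3, h4⟩ := hC (min R₀ 2) (lt_min hR₀ one_lt_two)
  exact ⟨R, h2, h3.trans_le (min_le_left _ _), one_radius hA ht hS hε h2 (h3.trans_le (min_le_right _ _)) h4⟩

/-- **the equivalences, for every `A > 0`** -/
theorem tfaeA (hA : 0 < A) : List.TFAE [SMaA A, SMsA A, SMlA A, UpA A, LowA A, SharpA A, SharpMA A] := by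
  tfae_have 1 → 2 := smaA_smsA
  tfae_have 2 → 3 := smsA_smlA
  tfae_have 3 → 5 := smlA_lowA hA
  tfae_have 2 → 4 := smsA_upA hA
  tfae_have 4 → 5 := fun h t ht ψ g hS => upR_lowR (h t ht ψ g hS)
  tfae_have 5 → 6 := lowA_sharpA hA
  tfae_have 6 → 7 := sharpA_sharpMA hA
  tfae_have 7 → 1 := sharpMA_smaA
  tfae_finish

end Pool.Agent.V5helper27.BM
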