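import Pool.Agent.V5helper27.BM.GenA

set_option autoImplicit false

/-! # Project BM: one direction -/

open Complex Filter Topology Set Metric MeasureTheory

namespace Pool.Agent.V5helper27.BM

open Pool.Agent.V5helper62.BM (pmean_eq norm_pt cont_h pm_le q_gt)

/-- the integral of the question for the real part of `u h` in place of `h` -/
noncomputable def marshallU (a : ℝ) (u : ℂ) (R : ℝ) (h : ℂ → ℂ) : ℝ :=
  (1 / (2 * Real.pi)) * ∫ θ in (0:ℝ)..(2 * Real.pi), Real.exp (a * (u * h (circ R θ)).re ^ 2 / LR R)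

/-- the Gaussian integral on the line -/
theorem gauss1 (y b : ℝ) (hb : 0 < b) :
    ∫⁻ s : ℝ, ENNReal.ofReal (Real.exp (s * y - b * s ^ 2)) =
      ENNReal.ofReal (Real.sqrt (Real.pi / b) * Real.exp (y ^ 2 / (4 * b))) := by
  have e1 : ∀ s : ℝ, Real.exp (s * y - b * s ^ 2) = Real.exp (y ^ 2 / (4 * b)) * Real.exp (-b * (s - y / (2 * b)) ^ 2) := by
    intro s
    rw [← Real.exp_add]
    congr 1
    field_simp
    ring
  have h1 : Integrable (fun s : ℝ => Real.exp (-b * (s - y / (2 * b)) ^ 2)) :=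
    (integrable_exp_neg_mul_sq hb).comp_sub_right (y / (2 * b))
  have h2 : ∫ s : ℝ, Real.exp (-b * (s - y / (2 * b)) ^ 2) = Real.sqrt (Real.pi / b) := by
    rw [integral_sub_right_eq_self (fun s : ℝ => Real.exp (-b * s ^ 2)) (y / (2 * b)), integral_gaussian]
  simp only [e1]
  have h3 : Integrable (fun s : ℝ => Real.exp (y ^ 2 / (4 * b)) * Real.exp (-b * (s - y / (2 * b)) ^ 2)) :=
    h1.const_mul _
  rw [← ofReal_integral_eq_lintegral_ofReal h3 (Eventually.of_forall fun s => by positivity), integral_const_mul, h2]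
  congr 1
  ring

/-- the Gaussian average on the line -/
theorem gavg1 {f : ℝ → ℝ} (hf : Continuous f) {K D b : ℝ} (hK : 0 ≤ K) (hDb : D < b) (hb : 0 < b)
    (hexp : ∀ s : ℝ, (1 / (2 * Real.pi)) * ∫ θ in (0:ℝ)..(2 * Real.pi), Real.exp (s * f θ) ≤ K * Real.exp (D * s ^ 2)) :
    (1 / (2 * Real.pi)) * ∫ θ in (0:ℝ)..(2 * Real.pi), Real.exp (1 / (4 * b) * f θ ^ 2) ≤ K * Real.sqrt (b / (b - D)) := by
  have hpi := Real.pi_pos
  have hbD : 0 < b - D := by linarith
  have hct : ∀ s : ℝ, Continuous fun θ : ℝ => Real.exp (s * f θ) := fun s =>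
    Real.continuous_exp.comp (continuous_const.mul hf)
  have e2 : ∀ s : ℝ, ∫⁻ θ in Ioc 0 (2 * Real.pi), ENNReal.ofReal (Real.exp (s * f θ)) =
      ENNReal.ofReal (∫ θ in (0:ℝ)..(2 * Real.pi), Real.exp (s * f θ)) := fun s =>
    Q90.SM.lint_eq (hct s) (fun θ => (Real.exp_pos _).le)
  have e3 : ∀ θ : ℝ, ENNReal.ofReal (Real.exp (1 / (4 * b) * f θ ^ 2)) =
      ENNReal.ofReal (Real.sqrt (b / Real.pi)) * ∫⁻ s : ℝ, ENNReal.ofReal (Real.exp (s * f θ - b * s ^ 2)) := by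
    intro θ
    rw [gauss1 (f θ) b hb, ← ENNReal.ofReal_mul (Real.sqrt_nonneg _)]
    congr 1
    rw [← mul_assoc, ← Real.sqrt_mul (by positivity)]
    have : b / Real.pi * (Real.pi / b) = 1 := by field_simp
    rw [this, Real.sqrt_one, one_mul]
    congr 1
    ring
  have hem : ENNReal.ofReal (∫ θ in (0:ℝ)..(2 * Real.pi), Real.exp (1 / (4 * b) * f θ ^ 2)) =
      ∫⁻ θ in Ioc 0 (2 * Real.pi), ENNReal.ofReal (Real.exp (1 / (4 * b) * f θ ^ 2)) := by
    rw [Q90.SM.lint_eq]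
    · exact Real.continuous_exp.comp (continuous_const.mul (hf.pow 2))
    · intro θ
      exact (Real.exp_pos _).le
  have hmeas : Measurable (Function.uncurry fun (θ s : ℝ) => ENNReal.ofReal (Real.exp (s * f θ - b * s ^ 2))) := by
    apply Measurable.ennreal_ofReal
    apply Continuous.measurable
    apply Real.continuous_exp.comp
    apply Continuous.sub
    · exact continuous_snd.mul (hf.comp continuous_fst)
    · exact continuous_const.mul (continuous_snd.pow 2)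
  have h1 : ENNReal.ofReal (∫ θ in (0:ℝ)..(2 * Real.pi), Real.exp (1 / (4 * b) * f θ ^ 2)) =
      ENNReal.ofReal (Real.sqrt (b / Real.pi)) *
        ∫⁻ s : ℝ, ENNReal.ofReal (Real.exp (-(b * s ^ 2))) * ENNReal.ofReal (∫ θ in (0:ℝ)..(2 * Real.pi), Real.exp (s * f θ)) := by
    rw [hem]
    simp only [e3]
    rw [lintegral_const_mul]
    · congr 1
      rw [lintegral_lintegral_swap hmeas.aemeasurable]
      congr 1
      funext s
      rw [← e2 s, ← lintegral_const_mul]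
      · congr 1
        funext θ
        rw [← ENNReal.ofReal_mul (Real.exp_pos _).le, ← Real.exp_add]
        congr 2
        ring
      · exact (hct s).measurable.ennreal_ofReal
    · exact hmeas.lintegral_prod_right'
  have hexp' : ∀ s : ℝ, ∫ θ in (0:ℝ)..(2 * Real.pi), Real.exp (s * f θ) ≤ 2 * Real.pi * (K * Real.exp (D * s ^ 2)) := by
    intro s
    have h := mul_le_mul_of_nonneg_left (hexp s) (show (0:ℝ) ≤ 2 * Real.pi by positivity)
    have e : 2 * Real.pi * (1 / (2 * Real.pi) * ∫ θ in (0:ℝ)..(2 * Real.pi), Real.exp (s * f θ)) =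
        ∫ θ in (0:ℝ)..(2 * Real.pi), Real.exp (s * f θ) := by field_simp
    rw [e] at h
    exact h
  have h2 : ∫⁻ s : ℝ, ENNReal.ofReal (Real.exp (-(b * s ^ 2))) * ENNReal.ofReal (∫ θ in (0:ℝ)..(2 * Real.pi), Real.exp (s * f θ)) ≤
      ENNReal.ofReal (2 * Real.pi * K) * ∫⁻ s : ℝ, ENNReal.ofReal (Real.exp (s * 0 - (b - D) * s ^ 2)) := by
    rw [← lintegral_const_mul]
    · apply lintegral_mono
      intro s
      simp only
      rw [← ENNReal.ofReal_mul (Real.exp_pos _).le, ← ENNReal.ofReal_mul (by positivity)]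
      apply ENNReal.ofReal_le_ofReal
      calc Real.exp (-(b * s ^ 2)) * ∫ θ in (0:ℝ)..(2 * Real.pi), Real.exp (s * f θ)
          ≤ Real.exp (-(b * s ^ 2)) * (2 * Real.pi * (K * Real.exp (D * s ^ 2))) := by
            gcongr
            exact hexp' s
        _ = 2 * Real.pi * K * (Real.exp (-(b * s ^ 2)) * Real.exp (D * s ^ 2)) := by ring
        _ = _ := by
            rw [← Real.exp_add]
            congr 2
            ring
    · apply Measurable.ennreal_ofReal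
      apply Continuous.measurable
      fun_prop
  rw [gauss1 0 (b - D) hbD] at h2
  have h3 : ENNReal.ofReal (∫ θ in (0:ℝ)..(2 * Real.pi), Real.exp (1 / (4 * b) * f θ ^ 2)) ≤
      ENNReal.ofReal (2 * Real.pi * (K * Real.sqrt (b / (b - D)))) := by
    rw [h1]
    calc ENNReal.ofReal (Real.sqrt (b / Real.pi)) * ∫⁻ s : ℝ, ENNReal.ofReal (Real.exp (-(b * s ^ 2))) *
          ENNReal.ofReal (∫ θ in (0:ℝ)..(2 * Real.pi), Real.exp (s * f θ))
        ≤ ENNReal.ofReal (Real.sqrt (b / Real.pi)) * (ENNReal.ofReal (2 * Real.pi * K) *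
            ENNReal.ofReal (Real.sqrt (Real.pi / (b - D)) * Real.exp (0 ^ 2 / (4 * (b - D))))) := by
          gcongr
      _ = _ := by
          rw [← ENNReal.ofReal_mul (by positivity), ← ENNReal.ofReal_mul (Real.sqrt_nonneg _)]
          congr 1
          have e5 : Real.sqrt (b / (b - D)) = Real.sqrt (b / Real.pi) * Real.sqrt (Real.pi / (b - D)) := by
            rw [← Real.sqrt_mul (by positivity)]
            congr 1
            field_simp
          rw [e5]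
          simp
          ring
  rw [ENNReal.ofReal_le_ofReal_iff (by positivity)] at h3
  calc (1 / (2 * Real.pi)) * ∫ θ in (0:ℝ)..(2 * Real.pi), Real.exp (1 / (4 * b) * f θ ^ 2)
      ≤ (1 / (2 * Real.pi)) * (2 * Real.pi * (K * Real.sqrt (b / (b - D)))) :=
        mul_le_mul_of_nonneg_left h3 (by positivity)
    _ = _ := by field_simp

/-- the bound of the means by the integral, at one radius -/
theorem pmean_le_marshallU {ψ h : ℂ → ℂ} (hS : IsSig ψ h) {R : ℝ} (hR : 1 < R) {c : ℝ} (hc0 : 0 < c) (s : ℝ) (u : ℂ) :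
    pmean (s * u) R h ≤ marshallU (1 / (4 * c)) u R h * (R ^ 2 / (R ^ 2 - 1)) ^ (c * s ^ 2) := by
  have hS' : Q90.SM.IsSig ψ h := hS
  have hL := Q90.SM.L_pos hR
  have hcont := hS'.cont hR
  have hcu : Continuous fun θ : ℝ => (u * h (circ R θ)).re := Complex.continuous_re.comp (continuous_const.mul hcont)
  have hq : 0 < R ^ 2 / (R ^ 2 - 1) := by
    have : 0 < R ^ 2 - 1 := by nlinarith
    positivity
  have e1 : (R ^ 2 / (R ^ 2 - 1)) ^ (c * s ^ 2) = Real.exp (c * s ^ 2 * Real.log (R ^ 2 / (R ^ 2 - 1))) := by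
    rw [Real.rpow_def_of_pos hq, mul_comm]
  have eL : LR R = Real.log (R ^ 2 / (R ^ 2 - 1)) := rfl
  unfold marshallU
  rw [eL, e1]
  set L : ℝ := Real.log (R ^ 2 / (R ^ 2 - 1)) with hLdef
  calc pmean (s * u) R h ≤ (1 / (2 * Real.pi)) * ∫ θ in (0:ℝ)..(2 * Real.pi),
        Real.exp (1 / (4 * c) * (u * h (circ R θ)).re ^ 2 / L) * Real.exp (c * s ^ 2 * L) := by
        apply Q90.SM.mean_le
        · exact (Complex.continuous_exp.comp (continuous_const.mul hcont)).norm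
        · exact (Real.continuous_exp.comp ((continuous_const.mul (hcu.pow 2)).div_const _)).mul continuous_const
        · intro θ
          rw [Complex.norm_exp, ← Real.exp_add]
          apply Real.exp_le_exp.2
          have h3 : ((s : ℂ) * u * h (circ R θ)).re = s * (u * h (circ R θ)).re := by
            rw [mul_assoc, Complex.re_ofReal_mul]
          rw [h3]
          set y := (u * h (circ R θ)).re
          have h4 : 1 / (4 * c) * y ^ 2 / L + c * s ^ 2 * L - s * y = (y / (2 * c * L) - s) ^ 2 * (c * L) := by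
            field_simp
            ring
          have h5 : 0 ≤ (y / (2 * c * L) - s) ^ 2 * (c * L) := by positivity
          linarith
    _ = _ := by
        rw [intervalIntegral.integral_mul_const, ← mul_assoc]

theorem marshallU_le {ψ h : ℂ → ℂ} (hS : IsSig ψ h) {R : ℝ} (hR : 1 < R) {a : ℝ} (ha : 0 < a) {u : ℂ} (hu : ‖u‖ = 1) :
    marshallU a u R h ≤ marshall a R h := by
  have hS' : Q90.SM.IsSig ψ h := hS
  have hL : 0 < LR R := LR_pos' hR
  have hcont := hS'.cont hR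
  have hcu : Continuous fun θ : ℝ => (u * h (circ R θ)).re := Complex.continuous_re.comp (continuous_const.mul hcont)
  refine Q90.SM.mean_le (Real.continuous_exp.comp ((continuous_const.mul (hcu.pow 2)).div_const _))
    (Real.continuous_exp.comp ((continuous_const.mul (hcont.norm.pow 2)).div_const _)) fun θ => ?_
  apply Real.exp_le_exp.2
  show a * (u * h (circ R θ)).re ^ 2 / LR R ≤ a * ‖h (circ R θ)‖ ^ 2 / LR R
  have h1 : |(u * h (circ R θ)).re| ≤ ‖h (circ R θ)‖ := by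
    have := Complex.abs_re_le_norm (u * h (circ R θ))
    rw [norm_mul, hu, one_mul] at this
    exact this
  have h2 : (u * h (circ R θ)).re ^ 2 ≤ ‖h (circ R θ)‖ ^ 2 := by
    rw [← sq_abs]
    exact pow_le_pow_left₀ (abs_nonneg _) h1 2
  gcongr

section

variable (A : ℝ) (u : ℂ)

def SMaU : Prop := ∀ a : ℝ, 0 < a → a < A → ∃ C R₀ : ℝ, 1 < R₀ ∧ ∀ R : ℝ, 1 < R → R < R₀ →
  ∀ ψ h : ℂ → ℂ, IsSig ψ h → marshallU a u R h ≤ C

def SMsU : Prop := ∀ a : ℝ, 0 < a → a < A → ∀ ψ h : ℂ → ℂ, IsSig ψ h → ∃ C R₀ : ℝ, 1 < R₀ ∧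
  ∀ R : ℝ, 1 < R → R < R₀ → marshallU a u R h ≤ C

def SMlU : Prop := ∀ a : ℝ, 0 < a → a < A → ∀ ψ h : ℂ → ℂ, IsSig ψ h → ∃ C : ℝ, ∀ R₀ : ℝ, 1 < R₀ →
  ∃ R : ℝ, 1 < R ∧ R < R₀ ∧ marshallU a u R h ≤ C

def UpU : Prop := ∀ s : ℝ, |s| ≤ 2 * A → ∀ ψ h : ℂ → ℂ, IsSig ψ h → UpR (s * u) (s ^ 2 / (4 * A)) h

def LowU : Prop := ∀ s : ℝ, |s| ≤ 2 * A → ∀ ψ h : ℂ → ℂ, IsSig ψ h → LowR (s * u) (s ^ 2 / (4 * A)) h

def SharpU : Prop := ∃ C : ℝ, ∀ R : ℝ, 1 < R → ∀ ψ h : ℂ → ℂ, IsSig ψ h → ∀ s : ℝ,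
  pmean (s * u) R h ≤ Real.exp (C + C * |s| * Real.sqrt (LR R)) * (R ^ 2 / (R ^ 2 - 1)) ^ (s ^ 2 / (4 * A))

def SharpMU : Prop := ∃ C : ℝ, ∀ a : ℝ, 0 < a → a < A → ∀ R : ℝ, 1 < R → ∀ ψ h : ℂ → ℂ, IsSig ψ h →
  marshallU a u R h ≤ Real.exp (C / (A - a))

end

variable {A : ℝ} {u : ℂ}

theorem lowU_sharpU (hA : 0 < A) (hu : ‖u‖ = 1) (H : LowU A u) : SharpU A u := by
  obtain ⟨C₀, hC₀⟩ := gen_all
  set C : ℝ := max C₀ 0 with hCdef
  have hC0 : 0 ≤ C := le_max_right _ _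
  have hC1 : C₀ ≤ C := le_max_left _ _
  have hns : ∀ s : ℝ, ‖(s : ℂ) * u‖ = |s| := by
    intro s
    rw [norm_mul, hu, mul_one, Complex.norm_real, Real.norm_eq_abs]
  have key : ∀ (s : ℝ), |s| ≤ 2 * A → ∀ R : ℝ, 1 < R → ∀ ψ h : ℂ → ℂ, IsSig ψ h →
      pmean (s * u) R h ≤ Real.exp (C * (1 + 2 * A) + C * |s| * Real.sqrt (LR R)) *
        (R ^ 2 / (R ^ 2 - 1)) ^ (s ^ 2 / (4 * A)) := by
    intro s hs R hR ψ h hS
    refine (hC₀ (s * u) (s ^ 2 / (4 * A)) (by positivity) (lowR_low (by positivity) (H s hs)) R hR ψ h hS).trans ?_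
    have hR2 : 0 < R ^ 2 - 1 := by nlinarith
    apply mul_le_mul_of_nonneg_right _ (by positivity)
    apply Real.exp_le_exp.2
    rw [hns]
    have hs0 : 0 ≤ |s| := abs_nonneg s
    have h1 : C₀ * |s| ≤ C * |s| := by gcongr
    have h2 : C * |s| ≤ C * (2 * A) := by gcongr
    have h3 : C₀ * |s| * Real.sqrt (LR R) ≤ C * |s| * Real.sqrt (LR R) := by gcongr
    nlinarith
  refine ⟨C * (1 + 2 * A), fun R hR ψ h hS s => ?_⟩
  have hCC : C ≤ C * (1 + 2 * A) := le_mul_of_one_le_right hC0 (by linarith)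
  have hR2 : 0 < R ^ 2 - 1 := by nlinarith
  have hs0 : 0 ≤ Real.sqrt (LR R) := Real.sqrt_nonneg _
  have hsa : 0 ≤ |s| := abs_nonneg s
  rcases le_or_gt |s| (2 * A) with ht | ht
  · refine (key s ht R hR ψ h hS).trans ?_
    apply mul_le_mul_of_nonneg_right _ (by positivity)
    apply Real.exp_le_exp.2
    have h3 : C * |s| * Real.sqrt (LR R) ≤ C * (1 + 2 * A) * |s| * Real.sqrt (LR R) := by gcongr
    linarith
  · set x : ℝ := Real.log R with hx
    have hRpos : 0 < R := by linarith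
    have hRx : R = Real.exp x := (Real.exp_log hRpos).symm
    have hx0 : 0 < x := Real.log_pos hR
    have hn : 0 < |s| := by linarith
    have hT : 0 < 2 * A := by linarith
    have h1 := bigA Pool.Agent.V5helper6.BM.gol1 hS hx0 ((s : ℂ) * u) hT (by rw [hns]; exact ht.le)
    rw [hns] at h1
    set s' : ℝ := 2 * A / |s| * s with hs'
    have es : ((2 * A / |s| : ℝ) : ℂ) * ((s : ℂ) * u) = (s' : ℂ) * u := by
      rw [hs', Complex.ofReal_mul]
      ring
    rw [es] at h1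
    have ht0 : |s'| = 2 * A := by
      rw [hs', abs_mul, abs_of_nonneg (by positivity : (0:ℝ) ≤ 2 * A / |s|)]
      field_simp
    have h2 := key s' ht0.le R hR ψ h hS
    have hsq : s' ^ 2 = (2 * A) ^ 2 := by rw [← sq_abs, ht0]
    rw [ht0, hsq, hRx, pmean_eq] at h2
    rw [hRx, pmean_eq]
    have hq1 : 1 < (Real.exp x) ^ 2 / ((Real.exp x) ^ 2 - 1) := q_gt hx0
    set q : ℝ := (Real.exp x) ^ 2 / ((Real.exp x) ^ 2 - 1) with hq
    have hq0 : 0 < q := by linarith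
    have hLR : LR (Real.exp x) = Real.log q := rfl
    have e2 : Real.exp ((|s| - 2 * A) * LR (Real.exp x)) = q ^ (|s| - 2 * A) := by
      rw [Real.rpow_def_of_pos hq0, hLR, mul_comm]
    have e1 : (2 * A) ^ 2 / (4 * A) = A := by
      field_simp
      ring
    rw [e1] at h2
    rw [e2] at h1
    have h8 : q ^ (|s| - 2 * A) * q ^ A ≤ q ^ (s ^ 2 / (4 * A)) := by
      rw [← Real.rpow_add hq0]
      apply Real.rpow_le_rpow_of_exponent_le hq1.le
      rw [le_div_iff₀ (by positivity), ← sq_abs s]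
      nlinarith [sq_nonneg (|s| - 2 * A)]
    set w : ℝ := Real.sqrt (LR (Real.exp x)) with hw
    have hs1 : 0 ≤ w := Real.sqrt_nonneg _
    calc pm (s * u) x h ≤ q ^ (|s| - 2 * A) * pm ((s' : ℂ) * u) x h := h1
      _ ≤ q ^ (|s| - 2 * A) * (Real.exp (C * (1 + 2 * A) + C * (2 * A) * w) * q ^ A) :=
          mul_le_mul_of_nonneg_left h2 (Real.rpow_nonneg hq0.le _)
      _ = Real.exp (C * (1 + 2 * A) + C * (2 * A) * w) * (q ^ (|s| - 2 * A) * q ^ A) := by ring
      _ ≤ Real.exp (C * (1 + 2 * A) + C * (1 + 2 * A) * |s| * w) * q ^ (s ^ 2 / (4 * A)) := by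
          apply mul_le_mul _ h8 (by positivity) (by positivity)
          apply Real.exp_le_exp.2
          have h9 : C * (2 * A) * w ≤ C * (1 + 2 * A) * |s| * w := by
            gcongr
          linarith

theorem sharpU_sharpMU (hA : 0 < A) (hS : SharpU A u) : SharpMU A u := by
  obtain ⟨C₀, hC₀⟩ := hS
  set C : ℝ := max C₀ 0 with hCdef
  have hC0 : 0 ≤ C := le_max_right _ _
  have hC1 : C₀ ≤ C := le_max_left _ _
  refine ⟨C * A + 2 * A ^ 2 * C ^ 2 + 2 * A, fun a ha ha1 R hR ψ h hS => ?_⟩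
  have hS' : Q90.SM.IsSig ψ h := hS
  have hcont := hS'.cont hR
  have hcu : Continuous fun θ : ℝ => (u * h (circ R θ)).re := Complex.continuous_re.comp (continuous_const.mul hcont)
  have hL : 0 < LR R := LR_pos' hR
  have hq : 0 < R ^ 2 / (R ^ 2 - 1) := by
    have : 0 < R ^ 2 - 1 := by nlinarith
    positivity
  have hd : 0 < A - a := by linarith
  have e0 : marshallU a u R h = (1 / (2 * Real.pi)) * ∫ θ in (0:ℝ)..(2 * Real.pi),
      Real.exp (1 / (4 * (LR R / (4 * a))) * (u * h (circ R θ)).re ^ 2) := by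
    unfold marshallU
    congr 1
    apply intervalIntegral.integral_congr
    intro θ _
    simp only
    congr 1
    field_simp
  rw [e0]
  set L : ℝ := LR R with hLdef
  have eD : L / (4 * a) - (L / (4 * A) + L * (A - a) / (8 * a * A)) = L * (A - a) / (8 * a * A) := by
    field_simp
    ring
  have key := gavg1 hcu (K := Real.exp (C + 2 * a * A * C ^ 2 / (A - a)))
    (D := L / (4 * A) + L * (A - a) / (8 * a * A)) (b := L / (4 * a)) (Real.exp_pos _).le
    (by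
      have h2 : 0 < L * (A - a) / (8 * a * A) := by positivity
      linarith) (by positivity)
    (fun s => by
      have e5 : (1 / (2 * Real.pi)) * ∫ θ in (0:ℝ)..(2 * Real.pi), Real.exp (s * (u * h (circ R θ)).re) =
          pmean (s * u) R h := by
        unfold pmean
        congr 1
        apply intervalIntegral.integral_congr
        intro θ _
        simp only
        rw [Complex.norm_exp, mul_assoc, Complex.re_ofReal_mul]
      rw [e5]
      have h1 := hC₀ R hR ψ h hS s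
      refine h1.trans ?_
      rw [Real.rpow_def_of_pos hq, ← Real.exp_add, ← Real.exp_add]
      apply Real.exp_le_exp.2
      have e1 : Real.log (R ^ 2 / (R ^ 2 - 1)) = L := rfl
      rw [e1]
      set w : ℝ := Real.sqrt L with hw
      have hs2 : w ^ 2 = L := Real.sq_sqrt hL.le
      have hs0 : 0 ≤ w := Real.sqrt_nonneg _
      have hsa : 0 ≤ |s| := abs_nonneg s
      have h2 : C₀ * |s| * w ≤ C * |s| * w := by gcongr
      have h3 : C * |s| * w ≤ 2 * a * A * C ^ 2 / (A - a) + L * (A - a) / (8 * a * A) * |s| ^ 2 := by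
        rw [← hs2]
        have h4 : 2 * a * A * C ^ 2 / (A - a) + w ^ 2 * (A - a) / (8 * a * A) * |s| ^ 2 - C * |s| * w =
            (4 * a * A * C - (A - a) * |s| * w) ^ 2 / (8 * a * A * (A - a)) := by
          generalize A - a = d at hd
          field_simp
          ring
        have h5 : 0 ≤ (4 * a * A * C - (A - a) * |s| * w) ^ 2 / (8 * a * A * (A - a)) := by positivity
        linarith
      rw [sq_abs] at h3
      have h6 : L * (s ^ 2 / (4 * A)) = L / (4 * A) * s ^ 2 := by ring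
      nlinarith)
  refine key.trans ?_
  rw [eD]
  have e3 : L / (4 * a) / (L * (A - a) / (8 * a * A)) = 2 * A / (A - a) := by
    have h1 : L ≠ 0 := hL.ne'
    generalize A - a = d at hd
    field_simp
    ring
  rw [e3]
  have hx0 : 0 ≤ 2 * A / (A - a) := by positivity
  have h1 : Real.sqrt (2 * A / (A - a)) ≤ Real.exp (2 * A / (A - a)) := by
    have h2 := Real.add_one_le_exp (2 * A / (A - a))
    have h3 : Real.sqrt (2 * A / (A - a)) ≤ 2 * A / (A - a) + 1 := by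
      rw [Real.sqrt_le_left (by positivity)]
      nlinarith
    linarith
  calc Real.exp (C + 2 * a * A * C ^ 2 / (A - a)) * Real.sqrt (2 * A / (A - a)) ≤
        Real.exp (C + 2 * a * A * C ^ 2 / (A - a)) * Real.exp (2 * A / (A - a)) := by gcongr
    _ = Real.exp (C + 2 * a * A * C ^ 2 / (A - a) + 2 * A / (A - a)) := (Real.exp_add _ _).symm
    _ ≤ _ := by
        apply Real.exp_le_exp.2
        rw [le_div_iff₀ hd]
        have h6 : (C + 2 * a * A * C ^ 2 / (A - a) + 2 * A / (A - a)) * (A - a) =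
            C * (A - a) + 2 * a * A * C ^ 2 + 2 * A := by
          field_simp
        rw [h6]
        have h7 : C * (A - a) ≤ C * A := by gcongr; linarith
        have h8 : 2 * a * A * C ^ 2 ≤ 2 * A ^ 2 * C ^ 2 := by
          have : a * A ≤ A ^ 2 := by nlinarith
          nlinarith [sq_nonneg C]
        linarith

/-- at one radius -/
theorem one_radiusU (hA : 0 < A) {s : ℝ} (ht : |s| ≤ 2 * A) {ψ g : ℂ → ℂ} (hS : IsSig ψ g) {ε : ℝ} (hε : 0 < ε) {C R : ℝ}
    (h1 : 1 < R) (h2 : R < 2) (h3 : marshallU (1 / (4 * (1 / (4 * A) + ε / (4 * A ^ 2)))) u R g ≤ C) :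
    pmean (s * u) R g ≤ (|C| * 2 ^ (s ^ 2 / (4 * A) + ε)) * (R - 1) ^ (-(s ^ 2 / (4 * A) + ε)) := by
  set c : ℝ := 1 / (4 * A) + ε / (4 * A ^ 2) with hc
  have hc0 : 0 < c := by positivity
  have hR2 : 0 < R ^ 2 - 1 := by nlinarith
  have hq1 : 1 ≤ R ^ 2 / (R ^ 2 - 1) := by
    rw [le_div_iff₀ hR2]
    linarith
  have he : c * s ^ 2 ≤ s ^ 2 / (4 * A) + ε := by
    have h5 : s ^ 2 ≤ 4 * A ^ 2 := by
      rw [← sq_abs]
      have := abs_nonneg s
      nlinarith
    have h6 : c * s ^ 2 = s ^ 2 / (4 * A) + ε * (s ^ 2 / (4 * A ^ 2)) := by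
      rw [hc]
      ring
    have h7 : s ^ 2 / (4 * A ^ 2) ≤ 1 := by
      rw [div_le_one (by positivity)]
      exact h5
    rw [h6]
    nlinarith
  have h4 := q_pow_le h1 h2 (show 0 ≤ s ^ 2 / (4 * A) + ε by positivity)
  have h6 : 0 ≤ (R ^ 2 / (R ^ 2 - 1)) ^ (c * s ^ 2) := by positivity
  calc pmean (s * u) R g ≤ marshallU (1 / (4 * c)) u R g * (R ^ 2 / (R ^ 2 - 1)) ^ (c * s ^ 2) :=
        pmean_le_marshallU hS h1 hc0 s u
    _ ≤ |C| * (R ^ 2 / (R ^ 2 - 1)) ^ (c * s ^ 2) := mul_le_mul_of_nonneg_right (h3.trans (le_abs_self C)) h6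
    _ ≤ |C| * (2 ^ (s ^ 2 / (4 * A) + ε) * (R - 1) ^ (-(s ^ 2 / (4 * A) + ε))) :=
        mul_le_mul_of_nonneg_left ((Real.rpow_le_rpow_of_exponent_le hq1 he).trans h4) (abs_nonneg C)
    _ = _ := by ring

/-- **one direction: the equivalences, for every `A > 0`** -/
theorem tfaeU (hA : 0 < A) (hu : ‖u‖ = 1) :
    List.TFAE [SMaU A u, SMsU A u, SMlU A u, UpU A u, LowU A u, SharpU A u, SharpMU A u] := by
  tfae_have 1 → 2 := by
    intro h a ha ha1 ψ g hS
    obtain ⟨C, R₀, hR₀, hC⟩ := h a ha ha1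
    exact ⟨C, R₀, hR₀, fun R hR hR' => hC R hR hR' ψ g hS⟩
  tfae_have 2 → 3 := by
    intro H a ha ha1 ψ h hS
    obtain ⟨C, R₁, hR₁, hC⟩ := H a ha ha1 ψ h hS
    refine ⟨C, fun R₀ hR₀ => ?_⟩
    obtain ⟨R, h1, h2⟩ := exists_between (lt_min hR₀ hR₁)
    exact ⟨R, h1, h2.trans_le (min_le_left _ _), hC R h1 (h2.trans_le (min_le_right _ _))⟩
  tfae_have 3 → 5 := by
    intro H s ht ψ g hS ε hε
    obtain ⟨h0, h1⟩ := c_lt hA hε
    obtain ⟨C, hC⟩ := H _ h0 h1 ψ g hS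
    refine ⟨|C| * 2 ^ (s ^ 2 / (4 * A) + ε), fun R₀ hR₀ => ?_⟩
    obtain ⟨R, h2, h3, h4⟩ := hC (min R₀ 2) (lt_min hR₀ one_lt_two)
    exact ⟨R, h2, h3.trans_le (min_le_left _ _), one_radiusU hA ht hS hε h2 (h3.trans_le (min_le_right _ _)) h4⟩
  tfae_have 2 → 4 := by
    intro H s ht ψ g hS ε hε
    obtain ⟨h0, h1⟩ := c_lt hA hε
    obtain ⟨C, R₁, hR₁, hC⟩ := H _ h0 h1 ψ g hS
    exact ⟨|C| * 2 ^ (s ^ 2 / (4 * A) + ε), min R₁ 2, lt_min hR₁ one_lt_two, fun R h2 h3 =>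
      one_radiusU hA ht hS hε h2 (h3.trans_le (min_le_right _ _)) (hC R h2 (h3.trans_le (min_le_left _ _)))⟩
  tfae_have 4 → 5 := fun h s ht ψ g hS => upR_lowR (h s ht ψ g hS)
  tfae_have 5 → 6 := lowU_sharpU hA hu
  tfae_have 6 → 7 := sharpU_sharpMU hA
  tfae_have 7 → 1 := by
    intro h
    obtain ⟨C, hC⟩ := h
    exact fun a ha ha1 => ⟨Real.exp (C / (A - a)), 2, one_lt_two, fun R hR _ ψ h hS => hC a ha ha1 R hR ψ h hS⟩
  tfae_finish

/-- all directions, single functions, lower limit -/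
def SMd (A : ℝ) : Prop := ∀ a : ℝ, 0 < a → a < A → ∀ u : ℂ, ‖u‖ = 1 → ∀ ψ h : ℂ → ℂ, IsSig ψ h → ∃ C : ℝ,
  ∀ R₀ : ℝ, 1 < R₀ → ∃ R : ℝ, 1 < R ∧ R < R₀ ∧ marshallU a u R h ≤ C

theorem smd_lowA (hA : 0 < A) (H : SMd A) : LowA A := by
  intro t ht ψ g hS ε hε
  obtain ⟨h0, h1⟩ := c_lt hA hε
  obtain ⟨u, hu, htu⟩ : ∃ u : ℂ, ‖u‖ = 1 ∧ ((‖t‖ : ℝ) : ℂ) * u = t := by
    by_cases h : t = 0
    · exact ⟨1, norm_one, by rw [h]; simp⟩
    · have hn : ((‖t‖ : ℝ) : ℂ) ≠ 0 := by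
        exact_mod_cast (norm_pos_iff.2 h).ne'
      refine ⟨t / ((‖t‖ : ℝ) : ℂ), ?_, by field_simp⟩
      rw [norm_div, Complex.norm_real, norm_norm, div_self]
      exact (norm_pos_iff.2 h).ne'
  obtain ⟨C, hC⟩ := H _ h0 h1 u hu ψ g hS
  refine ⟨|C| * 2 ^ (‖t‖ ^ 2 / (4 * A) + ε), fun R₀ hR₀ => ?_⟩
  obtain ⟨R, h2, h3, h4⟩ := hC (min R₀ 2) (lt_min hR₀ one_lt_two)
  have h5 := one_radiusU hA (s := ‖t‖) (by rw [abs_norm]; exact ht) hS hε h2 (h3.trans_le (min_le_right _ _)) h4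
  rw [htu] at h5
  exact ⟨R, h2, h3.trans_le (min_le_left _ _), h5⟩

theorem smlA_smd (H : SMlA A) : SMd A := by
  intro a ha ha1 u hu ψ h hS
  obtain ⟨C, hC⟩ := H a ha ha1 ψ h hS
  refine ⟨C, fun R₀ hR₀ => ?_⟩
  obtain ⟨R, h2, h3, h4⟩ := hC R₀ hR₀
  exact ⟨R, h2, h3, (marshallU_le hS h2 ha hu).trans h4⟩

/-- **the equivalences, for every `A > 0`** -/
theorem tfaeA' (hA : 0 < A) : List.TFAE [SMaA A, SMsA A, SMlA A, SMd A, UpA A, LowA A, SharpA A, SharpMA A] := by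
  tfae_have 1 → 2 := smaA_smsA
  tfae_have 2 → 3 := smsA_smlA
  tfae_have 3 → 4 := smlA_smd
  tfae_have 4 → 6 := smd_lowA hA
  tfae_have 2 → 5 := smsA_upA hA
  tfae_have 5 → 6 := fun h t ht ψ g hS => upR_lowR (h t ht ψ g hS)
  tfae_have 6 → 7 := lowA_sharpA hA
  tfae_have 7 → 8 := sharpA_sharpMA hA
  tfae_have 8 → 1 := sharpMA_smaA
  tfae_finish

end Pool.Agent.V5helper27.BM
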