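import Pool.Agent.V5helper27.BM.GenU

set_option autoImplicit false

/-!
# MP_16b0ee_an: the real part of the question is equivalent to Kraetzer's conjecture

`L(R) = log (R² / (R² - 1))`, `h = log ψ'`, `|ψ'^t| = |exp (t h)|` for complex `t`. Let `|u| = 1`; `u = 1` is the case of
`Re h = log |ψ'|`, and the exponents `t = s u` of 4-6 are real then.

For every `A > 0` the following are equivalent: 1. the bound of the question for `Re (u h)` in place of `h`, for all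
`a < A`, uniformly in `ψ`; 2. the same for every single `ψ`; 3. the same for every single `ψ` along some `R → 1+`;
4. growth exponent of the means of `|ψ'^(su)|` at most `s²/(4A)` for every single `ψ` and real `|s| ≤ 2A` (`A = 1`, `u = 1`:
the upper bound of Kraetzer's conjecture); 5. the same with the lower growth exponents; 6. the uniform bound
`exp (C + C |s| √L) (R² / (R² - 1))^(s²/(4A))` for all `R > 1` and real `s`; 7. the bound `exp (C / (A - a))` for the integral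
with `Re (u h)`, for all `0 < a < A` and all `R > 1`.

The proof uses `Pool.Agent.V5helper27.BM.gen_all` (one exponent at a time, see `BinderEquivalence` of this problem) and
Gaussian averaging over the line of the real multiples of `u`.
-/

namespace Pool.Agent.V5helper27.BM.OneDir

open Pool.Agent.V5helper27.BM

/-- The point `r e^{iθ}`. -/
noncomputable def circ (r θ : ℝ) : ℂ := (r : ℂ) * Complex.exp ((θ : ℂ) * Complex.I)

/-- `ψ ∈ Σ` and `h = log ψ'` (the branch vanishing at infinity), exactly as in the problem. -/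
def IsSigma (ψ h : ℂ → ℂ) : Prop :=
  DifferentiableOn ℂ ψ {z : ℂ | 1 < ‖z‖} ∧
  Set.InjOn ψ {z : ℂ | 1 < ‖z‖} ∧
  (∃ b : ℂ, Filter.Tendsto (fun z => ψ z - z) (Bornology.cobounded ℂ) (nhds b)) ∧
  DifferentiableOn ℂ h {z : ℂ | 1 < ‖z‖} ∧
  (∀ z : ℂ, 1 < ‖z‖ → Complex.exp (h z) = deriv ψ z) ∧
  Filter.Tendsto h (Bornology.cobounded ℂ) (nhds 0)

/-- `L = log (R² / (R² - 1))`. -/
noncomputable def L (R : ℝ) : ℝ := Real.log (R ^ 2 / (R ^ 2 - 1))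

/-- The integral of Q1 with the real part of `u h` in place of `h`. -/
noncomputable def marshallRe (a : ℝ) (u : ℂ) (R : ℝ) (h : ℂ → ℂ) : ℝ :=
  (1 / (2 * Real.pi)) * ∫ θ in (0:ℝ)..(2 * Real.pi), Real.exp (a * (u * h (circ R θ)).re ^ 2 / L R)

/-- The mean of `|ψ'^t|`, `ψ'^t = exp (t h)`, over the circle `|z| = R`, `t` complex. -/
noncomputable def mean (t : ℂ) (R : ℝ) (h : ℂ → ℂ) : ℝ :=
  (1 / (2 * Real.pi)) * ∫ θ in (0:ℝ)..(2 * Real.pi), ‖Complex.exp (t * h (circ R θ))‖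

/-- The growth exponent (limsup) of the mean of `|ψ'^t|` as `R → 1+` is at most `β`. -/
def Upper (t : ℂ) (β : ℝ) (h : ℂ → ℂ) : Prop := ∀ ε : ℝ, 0 < ε → ∃ K R₀ : ℝ, 1 < R₀ ∧ ∀ R : ℝ, 1 < R → R < R₀ →
  mean t R h ≤ K * (R - 1) ^ (-(β + ε))

/-- The lower growth exponent (liminf) of the mean of `|ψ'^t|` as `R → 1+` is at most `β`. -/
def Lower (t : ℂ) (β : ℝ) (h : ℂ → ℂ) : Prop := ∀ ε : ℝ, 0 < ε → ∃ K : ℝ, ∀ R₀ : ℝ, 1 < R₀ → ∃ R : ℝ, 1 < R ∧ R < R₀ ∧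
  mean t R h ≤ K * (R - 1) ^ (-(β + ε))

theorem result : ∀ A : ℝ, 0 < A → ∀ u : ℂ, ‖u‖ = 1 → List.TFAE [
    (∀ a : ℝ, 0 < a → a < A → ∃ C R₀ : ℝ, 1 < R₀ ∧ ∀ R : ℝ, 1 < R → R < R₀ →
      ∀ ψ h : ℂ → ℂ, IsSigma ψ h → marshallRe a u R h ≤ C),
    (∀ a : ℝ, 0 < a → a < A → ∀ ψ h : ℂ → ℂ, IsSigma ψ h → ∃ C R₀ : ℝ, 1 < R₀ ∧
      ∀ R : ℝ, 1 < R → R < R₀ → marshallRe a u R h ≤ C),
    (∀ a : ℝ, 0 < a → a < A → ∀ ψ h : ℂ → ℂ, IsSigma ψ h → ∃ C : ℝ, ∀ R₀ : ℝ, 1 < R₀ →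
      ∃ R : ℝ, 1 < R ∧ R < R₀ ∧ marshallRe a u R h ≤ C),
    (∀ s : ℝ, |s| ≤ 2 * A → ∀ ψ h : ℂ → ℂ, IsSigma ψ h → Upper (s * u) (s ^ 2 / (4 * A)) h),
    (∀ s : ℝ, |s| ≤ 2 * A → ∀ ψ h : ℂ → ℂ, IsSigma ψ h → Lower (s * u) (s ^ 2 / (4 * A)) h),
    (∃ C : ℝ, ∀ R : ℝ, 1 < R → ∀ ψ h : ℂ → ℂ, IsSigma ψ h → ∀ s : ℝ,
      mean (s * u) R h ≤ Real.exp (C + C * |s| * Real.sqrt (L R)) * (R ^ 2 / (R ^ 2 - 1)) ^ (s ^ 2 / (4 * A))),
    (∃ C : ℝ, ∀ a : ℝ, 0 < a → a < A → ∀ R : ℝ, 1 < R → ∀ ψ h : ℂ → ℂ, IsSigma ψ h →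
      marshallRe a u R h ≤ Real.exp (C / (A - a)))] :=
  fun _ hA _ hu => tfaeU hA hu

end Pool.Agent.V5helper27.BM.OneDir
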