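import Pool.Agent.V5helper27.BM.Fin

set_option autoImplicit false

/-! # Project BM: the sharp forms (no loss in the exponent) -/

open Complex Filter Topology Set Metric MeasureTheory

namespace Pool.Agent.V5helper27.BM

open Pool.Agent.V5helper62.BM (pmean_eq norm_pt cont_h pm_le big small q_gt)

/-- the bound with the exponent `|t|²/4` and the loss `exp (C |t| √L)`, for all `R > 1` and all complex `t` -/
def Sharp : Prop := ∃ C : ℝ, ∀ R : ℝ, 1 < R → ∀ ψ h : ℂ → ℂ, IsSig ψ h → ∀ t : ℂ,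
  pmean t R h ≤ Real.exp (C + C * ‖t‖ * Real.sqrt (LR R)) * (R ^ 2 / (R ^ 2 - 1)) ^ (‖t‖ ^ 2 / 4)

/-- the integral of the question with the constant `exp (C / (1 - a))`, for all `R > 1` -/
def SharpM : Prop := ∃ C : ℝ, ∀ a : ℝ, 0 < a → a < 1 → ∀ R : ℝ, 1 < R → ∀ ψ h : ℂ → ℂ, IsSig ψ h →
  marshall a R h ≤ Real.exp (C / (1 - a))

/-- the conclusion of `S_iter` -/
def ItC : Prop := ∃ (C : ℝ) (m₀ : ℕ), 0 ≤ C ∧ 2 ≤ m₀ ∧ ∀ ψ h : ℂ → ℂ, IsSig ψ h → ∀ t : ℂ, ‖t‖ ≤ 2 →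
  ∀ m : ℕ, m₀ ≤ m → pm t (1 / m) h ≤ Real.exp (C + C * ‖t‖ * Real.sqrt (Real.log m)) * (m : ℝ) ^ (‖t‖ ^ 2 / 4)

theorem key_small (hl : S_lip) (hg : S_gol1) {C : ℝ} (hC : 0 ≤ C) {m₀ : ℕ} (hm₀ : 2 ≤ m₀)
    (hit : ∀ ψ h : ℂ → ℂ, IsSig ψ h → ∀ t : ℂ, ‖t‖ ≤ 2 →
      ∀ m : ℕ, m₀ ≤ m → pm t (1 / m) h ≤ Real.exp (C + C * ‖t‖ * Real.sqrt (Real.log m)) * (m : ℝ) ^ (‖t‖ ^ 2 / 4))
    {ψ h : ℂ → ℂ} (hS : IsSig ψ h) {x : ℝ} (hx0 : 0 < x) (hxm : x < 1 / m₀) (t : ℂ) :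
    pm t x h ≤ Real.exp (6 + 5 * C) * 4 * Real.exp (C * ‖t‖ * Real.sqrt (LR (Real.exp x))) *
      ((Real.exp x) ^ 2 / ((Real.exp x) ^ 2 - 1)) ^ (‖t‖ ^ 2 / 4) := by
  rcases le_or_gt ‖t‖ 2 with h2 | h2
  · exact small hl hC hm₀ hit hS hx0 hxm t h2
  · set q : ℝ := (Real.exp x) ^ 2 / ((Real.exp x) ^ 2 - 1) with hq
    have hq1 : 1 < q := q_gt hx0
    have hq0 : 0 < q := by linarith
    have hLR : LR (Real.exp x) = Real.log q := rfl
    have hlogq : 0 ≤ Real.log q := Real.log_nonneg hq1.le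
    have hb := big hg hS hx0 t h2.le
    have ht0 : ‖((2 / ‖t‖ : ℝ) : ℂ) * t‖ = 2 := by
      rw [norm_mul, Complex.norm_real, Real.norm_eq_abs, abs_of_nonneg (by positivity)]
      field_simp
    have hs := small hl hC hm₀ hit hS hx0 hxm (((2 / ‖t‖ : ℝ) : ℂ) * t) ht0.le
    rw [ht0, hLR, ← hq] at hs
    rw [hLR] at hb ⊢
    have e1 : (2:ℝ) ^ 2 / 4 = 1 := by norm_num
    rw [e1, Real.rpow_one] at hs
    have e2 : Real.exp ((‖t‖ - 2) * Real.log q) = q ^ (‖t‖ - 2) := by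
      rw [Real.rpow_def_of_pos hq0, mul_comm]
    have h7 : Real.exp (C * 2 * Real.sqrt (Real.log q)) ≤ Real.exp (C * ‖t‖ * Real.sqrt (Real.log q)) := by
      apply Real.exp_le_exp.2
      apply mul_le_mul_of_nonneg_right _ (Real.sqrt_nonneg _)
      exact mul_le_mul_of_nonneg_left h2.le hC
    have h8 : q ^ (‖t‖ - 2) * q ≤ q ^ (‖t‖ ^ 2 / 4) := by
      have e3 : q ^ (‖t‖ - 2) * q = q ^ (‖t‖ - 1) := by
        rw [← Real.rpow_add_one hq0.ne']; congr 1; ring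
      rw [e3]
      apply Real.rpow_le_rpow_of_exponent_le hq1.le
      nlinarith [sq_nonneg (‖t‖ - 2)]
    calc pm t x h ≤ q ^ (‖t‖ - 2) * pm (((2 / ‖t‖ : ℝ) : ℂ) * t) x h := by rw [← e2]; exact hb
      _ ≤ q ^ (‖t‖ - 2) * (Real.exp (6 + 5 * C) * 4 * Real.exp (C * 2 * Real.sqrt (Real.log q)) * q) :=
          mul_le_mul_of_nonneg_left hs (Real.rpow_nonneg hq0.le _)
      _ = (Real.exp (6 + 5 * C) * 4 * Real.exp (C * 2 * Real.sqrt (Real.log q))) * (q ^ (‖t‖ - 2) * q) := by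
          ring
      _ ≤ (Real.exp (6 + 5 * C) * 4 * Real.exp (C * ‖t‖ * Real.sqrt (Real.log q))) * q ^ (‖t‖ ^ 2 / 4) := by
          apply mul_le_mul _ h8 (by positivity) (by positivity)
          exact mul_le_mul_of_nonneg_left h7 (by positivity)

/-- the trivial bound by Goluzin's inequality -/
theorem pm_gol (hg : S_gol1) {ψ h : ℂ → ℂ} (hS : IsSig ψ h) {x : ℝ} (hx : 0 < x) (t : ℂ) :
    pm t x h ≤ Real.exp (‖t‖ * LR (Real.exp x)) := by
  have h0 : pm 0 x h = 1 := by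
    unfold pm
    simp only [zero_mul, Complex.zero_re, Real.exp_zero, intervalIntegral.integral_const, sub_zero, smul_eq_mul,
      mul_one]
    have := Real.pi_pos
    field_simp
  have h1 := pm_le hS hx hx t 0 (‖t‖ * LR (Real.exp x)) (fun θ => by
    set w : ℂ := cexp (x + θ * I) with hw
    have hwn : ‖w‖ = Real.exp x := norm_pt x θ
    have h1 := hg ψ h hS w (by
      show 1 < ‖w‖
      rw [hwn]; exact Real.one_lt_exp_iff.2 hx)
    rw [hwn] at h1
    have h2 : (t * h w).re ≤ ‖t‖ * ‖h w‖ := by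
      rw [← norm_mul]
      exact Complex.re_le_norm _
    have h3 : ‖t‖ * ‖h w‖ ≤ ‖t‖ * LR (Real.exp x) := mul_le_mul_of_nonneg_left h1 (norm_nonneg t)
    simp only [zero_mul, Complex.zero_re, zero_add]
    linarith)
  rw [h0, mul_one] at h1
  exact h1

theorem LR_pos' {R : ℝ} (hR : 1 < R) : 0 < LR R := by
  unfold LR
  exact Q90.SM.L_pos hR

theorem LR_anti' {R₀ R : ℝ} (hR₀ : 1 < R₀) (hR : R₀ ≤ R) : LR R ≤ LR R₀ := by
  unfold LR
  exact Q90.SM.L_anti hR₀ hR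

theorem it_sharp (hl : S_lip) (hg : S_gol1) (hi : ItC) : Sharp := by
  obtain ⟨C, m₀, hC, hm₀, hit⟩ := hi
  have hm₀0 : (0:ℝ) < m₀ := by
    have : (2:ℝ) ≤ m₀ := by exact_mod_cast hm₀
    linarith
  set R₀ : ℝ := Real.exp (1 / m₀) with hR₀
  have hR₀1 : 1 < R₀ := Real.one_lt_exp_iff.2 (by positivity)
  have hL0 : 0 < LR R₀ := LR_pos' hR₀1
  set D : ℝ := 6 + 5 * C + Real.log 4 + Real.sqrt (LR R₀) with hD
  have hlog4 : 0 ≤ Real.log 4 := Real.log_nonneg (by norm_num)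
  have hsq0 : 0 ≤ Real.sqrt (LR R₀) := Real.sqrt_nonneg _
  have hD0 : 0 ≤ D := by positivity
  refine ⟨D, fun R hR ψ h hS t => ?_⟩
  set x : ℝ := Real.log R with hx
  have hRpos : 0 < R := by linarith
  have hRx : R = Real.exp x := (Real.exp_log hRpos).symm
  have hx0 : 0 < x := Real.log_pos hR
  rw [hRx, pmean_eq]
  have hq1 : 1 < (Real.exp x) ^ 2 / ((Real.exp x) ^ 2 - 1) := q_gt hx0
  have hLx : 0 < LR (Real.exp x) := LR_pos' (Real.one_lt_exp_iff.2 hx0)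
  set q : ℝ := (Real.exp x) ^ 2 / ((Real.exp x) ^ 2 - 1) with hq
  have hq0 : 0 < q := by linarith
  rcases lt_or_ge x (1 / m₀) with hxm | hxm
  · refine (key_small hl hg hC hm₀ hit hS hx0 hxm t).trans ?_
    apply mul_le_mul_of_nonneg_right _ (Real.rpow_nonneg hq0.le _)
    have e4 : (4:ℝ) = Real.exp (Real.log 4) := (Real.exp_log (by norm_num)).symm
    calc Real.exp (6 + 5 * C) * 4 * Real.exp (C * ‖t‖ * Real.sqrt (LR (Real.exp x)))
        = Real.exp (6 + 5 * C) * Real.exp (Real.log 4) * Real.exp (C * ‖t‖ * Real.sqrt (LR (Real.exp x))) := by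
          rw [← e4]
      _ = Real.exp (6 + 5 * C + Real.log 4 + C * ‖t‖ * Real.sqrt (LR (Real.exp x))) := by
          rw [← Real.exp_add, ← Real.exp_add]
      _ ≤ _ := by
          apply Real.exp_le_exp.2
          have h1 : C ≤ D := by rw [hD]; linarith
          have h2 : C * ‖t‖ * Real.sqrt (LR (Real.exp x)) ≤ D * ‖t‖ * Real.sqrt (LR (Real.exp x)) := by
            gcongr
          have h3 : 6 + 5 * C + Real.log 4 ≤ D := by rw [hD]; linarith
          linarith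
  · refine (pm_gol hg hS hx0 t).trans ?_
    have h1 : LR (Real.exp x) ≤ Real.sqrt (LR R₀) * Real.sqrt (LR (Real.exp x)) := by
      have h2 : LR (Real.exp x) ≤ LR R₀ := LR_anti' hR₀1 (Real.exp_le_exp.2 hxm)
      have h3 : Real.sqrt (LR (Real.exp x)) ≤ Real.sqrt (LR R₀) := Real.sqrt_le_sqrt h2
      calc LR (Real.exp x) = Real.sqrt (LR (Real.exp x)) * Real.sqrt (LR (Real.exp x)) :=
            (Real.mul_self_sqrt hLx.le).symm
        _ ≤ _ := by gcongr
    have h4 : 1 ≤ q ^ (‖t‖ ^ 2 / 4) := Real.one_le_rpow hq1.le (by positivity)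
    calc Real.exp (‖t‖ * LR (Real.exp x)) ≤ Real.exp (D + D * ‖t‖ * Real.sqrt (LR (Real.exp x))) := by
          apply Real.exp_le_exp.2
          have h5 : ‖t‖ * LR (Real.exp x) ≤ ‖t‖ * (Real.sqrt (LR R₀) * Real.sqrt (LR (Real.exp x))) := by
            gcongr
          have h6 : Real.sqrt (LR R₀) ≤ D := by rw [hD]; linarith
          have h7 : ‖t‖ * (Real.sqrt (LR R₀) * Real.sqrt (LR (Real.exp x))) ≤
              ‖t‖ * (D * Real.sqrt (LR (Real.exp x))) := by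
            gcongr
          nlinarith
      _ ≤ _ := le_mul_of_one_le_right (Real.exp_pos _).le h4

theorem sharp_sharpM (hS : Sharp) : SharpM := by
  obtain ⟨C₀, hC₀⟩ := hS
  -- a nonnegative constant
  set C : ℝ := max C₀ 0 with hCdef
  have hC0 : 0 ≤ C := le_max_right _ _
  have hC1 : C₀ ≤ C := le_max_left _ _
  refine ⟨C + 2 * C ^ 2 + 1, fun a ha ha1 R hR ψ h hS => ?_⟩
  have S := (Q90.SM.ext_all ψ h hS).1
  have hR0 : 0 < R⁻¹ := by positivity
  have hR1 : R⁻¹ < 1 := inv_lt_one_of_one_lt₀ hR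
  have hL : 0 < LR R := LR_pos' hR
  have hq : 0 < R ^ 2 / (R ^ 2 - 1) := by
    have : 0 < R ^ 2 - 1 := by nlinarith
    positivity
  have hd : 0 < 1 - a := by linarith
  set L : ℝ := LR R with hLdef
  have e0 : marshall a R h = Pool.Agent.TH325.SI.em (Pool.Agent.W677.Mar.hat h 0) (1 / (4 * (L / (4 * a)))) R⁻¹ := by
    have h1 := (Q90.SM.ext_all ψ h hS).2.1 a R hR
    have h2 : marshall a R h = Q90.SM.marshall a R h := rfl
    rw [h2, h1]
    congr 1
    rw [← Pool.Agent.TH325.SI.log_eq hR]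
    show a / L = _
    field_simp
  rw [e0]
  have key := Q90.SM.gavg Q90.SM.gauss (Pool.Agent.W677.Mar.hat h 0) S.dH R⁻¹ hR0 hR1
    (Real.exp (C + 2 * a * C ^ 2 / (1 - a))) (L / 4 + L * (1 - a) / (8 * a)) (L / (4 * a)) (Real.exp_pos _).le
    (by
      have : L / (4 * a) - (L / 4 + L * (1 - a) / (8 * a)) = L * (1 - a) / (8 * a) := by
        field_simp
        ring
      have h2 : 0 < L * (1 - a) / (8 * a) := by positivity
      linarith) (by positivity)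
    (fun t => by
      rw [← (Q90.SM.ext_all ψ h hS).2.2 t R hR]
      have h1 := hC₀ R hR ψ h hS t
      refine h1.trans ?_
      rw [Real.rpow_def_of_pos hq, ← Real.exp_add, ← Real.exp_add]
      apply Real.exp_le_exp.2
      have e1 : Real.log (R ^ 2 / (R ^ 2 - 1)) = L := rfl
      rw [e1]
      set s : ℝ := Real.sqrt L with hs
      have hs2 : s ^ 2 = L := Real.sq_sqrt hL.le
      have hs0 : 0 ≤ s := Real.sqrt_nonneg _
      have h2 : C₀ * ‖t‖ * s ≤ C * ‖t‖ * s := by gcongr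
      have h3 : C * ‖t‖ * s ≤ 2 * a * C ^ 2 / (1 - a) + L * (1 - a) / (8 * a) * ‖t‖ ^ 2 := by
        rw [← hs2]
        have h4 : 2 * a * C ^ 2 / (1 - a) + s ^ 2 * (1 - a) / (8 * a) * ‖t‖ ^ 2 - C * ‖t‖ * s =
            (4 * a * C - (1 - a) * ‖t‖ * s) ^ 2 / (8 * a * (1 - a)) := by
          generalize 1 - a = d at hd
          field_simp
          ring
        have h5 : 0 ≤ (4 * a * C - (1 - a) * ‖t‖ * s) ^ 2 / (8 * a * (1 - a)) := by positivity
        linarith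
      nlinarith)
  refine key.trans ?_
  have e2 : L / (4 * a) - (L / 4 + L * (1 - a) / (8 * a)) = L * (1 - a) / (8 * a) := by
    field_simp
    ring
  rw [e2]
  have e3 : Real.exp (C + 2 * a * C ^ 2 / (1 - a)) * (L / (4 * a)) / (L * (1 - a) / (8 * a)) =
      Real.exp (C + 2 * a * C ^ 2 / (1 - a)) * (2 * (1 / (1 - a))) := by
    generalize Real.exp (C + 2 * a * C ^ 2 / (1 - a)) = E
    have h1 : L ≠ 0 := hL.ne'
    generalize 1 - a = d at hd
    field_simp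
    ring
  rw [e3]
  have h1 : 2 * (1 / (1 - a)) ≤ Real.exp (1 / (1 - a)) := by
    have h2 := Real.add_one_le_exp (1 / (1 - a) - 1)
    have h3 : Real.exp (1 / (1 - a)) = Real.exp (1 / (1 - a) - 1) * Real.exp 1 := by
      rw [← Real.exp_add]
      congr 1
      ring
    have h4 : (2:ℝ) ≤ Real.exp 1 := by
      have := Real.add_one_le_exp (1:ℝ)
      linarith
    have h5 : 0 < 1 / (1 - a) := by positivity
    rw [h3]
    nlinarith
  calc Real.exp (C + 2 * a * C ^ 2 / (1 - a)) * (2 * (1 / (1 - a))) ≤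
        Real.exp (C + 2 * a * C ^ 2 / (1 - a)) * Real.exp (1 / (1 - a)) := by gcongr
    _ = Real.exp (C + 2 * a * C ^ 2 / (1 - a) + 1 / (1 - a)) := (Real.exp_add _ _).symm
    _ ≤ _ := by
        apply Real.exp_le_exp.2
        rw [le_div_iff₀ hd]
        have h6 : (C + 2 * a * C ^ 2 / (1 - a) + 1 / (1 - a)) * (1 - a) = C * (1 - a) + 2 * a * C ^ 2 + 1 := by
          field_simp
        rw [h6]
        nlinarith [sq_nonneg C]

theorem sharpM_sma (h : SharpM) : SMa := by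
  obtain ⟨C, hC⟩ := h
  exact fun a ha ha1 => ⟨Real.exp (C / (1 - a)), 2, one_lt_two, fun R hR _ ψ h hS => hC a ha ha1 R hR ψ h hS⟩

end Pool.Agent.V5helper27.BM
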