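import Mathlib

set_option autoImplicit false

/-!
# Project BM: the strong Marshall conjecture is equivalent to Binder's conjecture

Statements of the jobs. `IsSig ψ h`: `ψ ∈ Σ`, `h = log ψ'` (the same as `Q90.SM.IsSig`, by `Iff.rfl`).
-/

open Complex Filter Topology Set Metric MeasureTheory

namespace Pool.Agent.V5helper27.BM

noncomputable def circ (r θ : ℝ) : ℂ := (r : ℂ) * Complex.exp ((θ : ℂ) * Complex.I)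

/-- `ψ ∈ Σ` and `h = log ψ'` (the branch vanishing at infinity). -/
def IsSig (ψ h : ℂ → ℂ) : Prop :=
  DifferentiableOn ℂ ψ {z : ℂ | 1 < ‖z‖} ∧
  Set.InjOn ψ {z : ℂ | 1 < ‖z‖} ∧
  (∃ b : ℂ, Filter.Tendsto (fun z => ψ z - z) (Bornology.cobounded ℂ) (nhds b)) ∧
  DifferentiableOn ℂ h {z : ℂ | 1 < ‖z‖} ∧
  (∀ z : ℂ, 1 < ‖z‖ → Complex.exp (h z) = deriv ψ z) ∧
  Filter.Tendsto h (Bornology.cobounded ℂ) (nhds 0)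

/-- The integral of the question. -/
noncomputable def marshall (a R : ℝ) (h : ℂ → ℂ) : ℝ :=
  (1 / (2 * Real.pi)) * ∫ θ in (0:ℝ)..(2 * Real.pi),
    Real.exp (a * ‖h (circ R θ)‖ ^ 2 / Real.log (R ^ 2 / (R ^ 2 - 1)))

/-- The integral mean of `|ψ' ^ t| = |exp (t h)|`, `t` complex. -/
noncomputable def pmean (t : ℂ) (R : ℝ) (h : ℂ → ℂ) : ℝ :=
  (1 / (2 * Real.pi)) * ∫ θ in (0:ℝ)..(2 * Real.pi), ‖Complex.exp (t * h (circ R θ))‖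

/-- the exterior of the closed unit disc -/
def Ex : Set ℂ := {z : ℂ | 1 < ‖z‖}

/-- `log (R² / (R² - 1))` -/
noncomputable def LR (R : ℝ) : ℝ := Real.log (R ^ 2 / (R ^ 2 - 1))

/-- the mean of `|ψ'^t|` over the circle `|z| = e^x` (equal to `pmean t (e^x) h`) -/
noncomputable def pm (t : ℂ) (x : ℝ) (h : ℂ → ℂ) : ℝ :=
  (1 / (2 * Real.pi)) * ∫ θ in (0:ℝ)..(2 * Real.pi), Real.exp (t * h (cexp (x + θ * I))).re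

/-! ## the explicit map `k` of `Ex` into itself which omits the disc of radius 1 about `z₀ = -√2 i` -/

/-- `s = √((u + 1) / (u - 1))` -/
noncomputable def sq (u : ℂ) : ℂ := cexp (Complex.log ((u + 1) / (u - 1)) / 2)

/-- `τ = exp (-iπ/4)` -/
noncomputable def tau : ℂ := cexp (-(Real.pi / 4) * I)

noncomputable def kk (u : ℂ) : ℂ := tau * (sq u + I) / (sq u - 1)

/-- `log (k' / √2)`, `k' = √2 (s + 1)² / (4 s)` -/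
noncomputable def sg (u : ℂ) : ℂ := 2 * Complex.log ((sq u + 1) / 2) - Complex.log ((u + 1) / (u - 1)) / 2

/-- `log ((k - z₀) / (√2 u))`, `(k - z₀) / (√2 u) = τ i (s + 1) / (√2 (s + i))` -/
noncomputable def nn (u : ℂ) : ℂ := Complex.log (tau * I / (Real.sqrt 2 : ℂ) * ((sq u + 1) / (sq u + I)))

noncomputable def z0 : ℂ := -(Real.sqrt 2 : ℂ) * I

/-- KM1: global properties of `k` -/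
def S_km1 : Prop :=
  ‖z0‖ = Real.sqrt 2 ∧ DifferentiableOn ℂ kk Ex ∧ InjOn kk Ex ∧ (∀ u ∈ Ex, ‖u‖ ≤ ‖kk u‖ ∧ 1 < ‖kk u - z0‖) ∧
  DifferentiableOn ℂ sg Ex ∧ (∀ u ∈ Ex, cexp (sg u) * (Real.sqrt 2 : ℂ) = deriv kk u) ∧
  DifferentiableOn ℂ nn Ex ∧ (∀ u ∈ Ex, cexp (nn u) * ((Real.sqrt 2 : ℂ) * u) = kk u - z0) ∧
  ∃ C : ℝ, ∀ u : ℂ, 2 ≤ ‖u‖ → ‖sg u‖ ≤ C / ‖u‖ ∧ ‖nn u‖ ≤ C / ‖u‖

/-- KM2: `k` near the point `i` of the circle, in logarithmic coordinates `u = exp (x + iθ)`, `k(u) = exp (X + iφ)` -/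
def S_km2 : Prop := ∃ C δ δ' : ℝ, 0 ≤ C ∧ 0 < δ ∧ δ < 1 ∧ 0 < δ' ∧ δ' < 1 ∧ ∀ x : ℝ, 0 < x → x < δ' →
  ∃ X φ φ' : ℝ → ℝ, ContinuousOn φ' (Icc (Real.pi / 2 - δ) (Real.pi / 2 + δ)) ∧
    (∀ θ ∈ Icc (Real.pi / 2 - δ) (Real.pi / 2 + δ), HasDerivAt φ (φ' θ) θ ∧ 0 ≤ φ' θ ∧ φ' θ ≤ 2 ∧
      x ≤ X θ ∧ X θ ≤ 2 * x ∧ kk (cexp (x + θ * I)) = cexp (X θ + φ θ * I) ∧
      ‖sg (cexp (x + θ * I))‖ ≤ C ∧ ‖nn (cexp (x + θ * I))‖ ≤ C) ∧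
    φ (Real.pi / 2 - δ) ≤ Real.pi / 2 - δ' ∧ Real.pi / 2 + δ' ≤ φ (Real.pi / 2 + δ)

/-- GOL: Goluzin's inequality for two points -/
def S_gol : Prop := ∀ ψ h : ℂ → ℂ, IsSig ψ h → ∀ z₀ : ℂ, 1 < ‖z₀‖ → ∃ G : ℂ → ℂ, DifferentiableOn ℂ G Ex ∧
  (∀ z ∈ Ex, cexp (G z) * (z - z₀) = ψ z - ψ z₀) ∧ (∀ z ∈ Ex, ‖G z‖ ≤ Real.sqrt (LR ‖z‖ * LR ‖z₀‖))

/-- LIP: the Lipschitz bound in logarithmic coordinates -/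
def S_lip : Prop := ∀ ψ h : ℂ → ℂ, IsSig ψ h → ∀ x : ℝ, 0 < x → ∀ ζ ζ' : ℂ, x ≤ ζ.re → x ≤ ζ'.re →
  ‖h (cexp ζ) - h (cexp ζ')‖ ≤ 3 / x * ‖ζ - ζ'‖

/-- COMP: composition -/
def S_comp : Prop := ∀ ψ₁ h₁ g hg : ℂ → ℂ, IsSig ψ₁ h₁ → IsSig g hg → ∀ ρ : ℂ, ρ ≠ 0 → (∀ z ∈ Ex, 1 < ‖ρ * g z‖) →
  IsSig (fun z => ρ⁻¹ * ψ₁ (ρ * g z)) (fun z => h₁ (ρ * g z) + hg z)

/-- the transform of `h₁`: `h₁(ρ g(z)) + h_g(z)` with `ρ g(z) = exp ((A + λ(z^M)) / M) z` and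
`h_g(z) = Φ(z^M) - (1 - 1/M) λ(z^M)` -/
noncomputable def TH (l Φ : ℂ → ℂ) (A : ℝ) (M : ℕ) (h₁ : ℂ → ℂ) (z : ℂ) : ℂ :=
  h₁ (cexp ((A + l (z ^ M)) / M) * z) + (Φ (z ^ M) - (1 - 1 / (M : ℂ)) * l (z ^ M))

/-- the data of a transformation -/
structure Dat (l Φ : ℂ → ℂ) (A : ℝ) : Prop where
  A1 : 1 ≤ A
  dl : DifferentiableOn ℂ l Ex
  dΦ : DifferentiableOn ℂ Φ Ex
  dec : ∃ C : ℝ, ∀ u : ℂ, 2 ≤ ‖u‖ → ‖l u‖ ≤ C / ‖u‖ ∧ ‖Φ u‖ ≤ C / ‖u‖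
  /-- `A - 1 + Re λ ≥ 0`, so that `|exp ((A + λ(z^M)) / M) z| ≥ exp (1/M) |z|` -/
  low : ∀ u ∈ Ex, 1 - A ≤ (l u).re
  /-- the transform maps `Σ` to `Σ` -/
  tr : ∀ M : ℕ, 2 ≤ M → ∀ ψ₁ h₁ : ℂ → ℂ, IsSig ψ₁ h₁ → ∃ ψ : ℂ → ℂ, IsSig ψ (TH l Φ A M h₁)

/-- DAT: construction of the data from `ψ₂`, with the local description. Here `λ = G ∘ k + N`, `Φ = h₂ ∘ k + σ`,
`g(z) = z exp (λ(z^M) / M)`, `g(z)^M = (ψ₂(k(z^M)) - ψ₂(z₀)) / √2`. Uses S_km1, S_km2, S_gol, S_lip, S_comp.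
`A`, `B`, `δ`, `δ'` do not depend on `ψ₂`. -/
def S_dat : Prop := ∃ A B δ δ' : ℝ, 0 ≤ B ∧ 0 < δ ∧ δ < 1 ∧ 0 < δ' ∧ δ' < 1 ∧ ∀ ψ₂ h₂ : ℂ → ℂ, IsSig ψ₂ h₂ →
  ∃ l Φ : ℂ → ℂ, Dat l Φ A ∧ ∀ x : ℝ, 0 < x → x < δ' →
    ∃ φ φ' : ℝ → ℝ, ContinuousOn φ' (Icc (Real.pi / 2 - δ) (Real.pi / 2 + δ)) ∧
      (∀ θ ∈ Icc (Real.pi / 2 - δ) (Real.pi / 2 + δ), HasDerivAt φ (φ' θ) θ ∧ 0 ≤ φ' θ ∧ φ' θ ≤ 2 ∧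
        ‖l (cexp (x + θ * I))‖ ≤ B * (1 + Real.sqrt (LR (Real.exp x))) ∧
        ‖Φ (cexp (x + θ * I)) - h₂ (cexp (x + φ θ * I))‖ ≤ B) ∧
      φ (Real.pi / 2 - δ) ≤ Real.pi / 2 - δ' ∧ Real.pi / 2 + δ' ≤ φ (Real.pi / 2 + δ)

/-- INT: the real analysis lemma -/
def S_int : Prop := ∀ (M : ℕ) (a b B B' : ℝ) (f f₁ F : ℝ → ℝ), 1 ≤ M → 0 ≤ a → a ≤ b → b ≤ 2 * Real.pi →
  Continuous f → Continuous f₁ → ContinuousOn F (Icc a b) → (∀ x, 0 ≤ f x) → (∀ x, 0 ≤ f₁ x) → (∀ x ∈ Icc a b, 0 ≤ F x) →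
  Function.Periodic f (2 * Real.pi) → Function.Periodic f₁ (2 * Real.pi) →
  (∀ j : ℕ, j < M → ∀ θ ∈ Icc a b, Real.exp (-B) * (f₁ ((θ + 2 * Real.pi * j) / M) * F θ) ≤ f ((θ + 2 * Real.pi * j) / M)) →
  (∀ x y, |x - y| ≤ 2 * Real.pi / M → Real.exp (-B') * f₁ y ≤ f₁ x) →
  Real.exp (-(B + B')) / (2 * Real.pi) * (∫ θ in (0:ℝ)..(2 * Real.pi), f₁ θ) * (∫ θ in a..b, F θ) ≤
    ∫ θ in (0:ℝ)..(2 * Real.pi), f θ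

/-- SUB: substitution on the arc -/
def S_sub : Prop := ∀ (a b c d : ℝ) (φ φ' F : ℝ → ℝ), a ≤ b → c ≤ d → ContinuousOn φ' (Icc a b) →
  (∀ θ ∈ Icc a b, HasDerivAt φ (φ' θ) θ ∧ 0 ≤ φ' θ ∧ φ' θ ≤ 2) → φ a ≤ c → d ≤ φ b → Continuous F → (∀ x, 0 ≤ F x) →
  1 / 2 * (∫ x in c..d, F x) ≤ ∫ θ in a..b, F (φ θ)

/-- ROT: rotation and pigeonhole -/
def S_rot : Prop := ∀ (δ' : ℝ), 0 < δ' → δ' < 1 → ∃ c : ℝ, 0 < c ∧ ∀ ψ h : ℂ → ℂ, IsSig ψ h → ∀ (t : ℂ) (x : ℝ), 0 < x →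
  ∃ ψ₂ h₂ : ℂ → ℂ, IsSig ψ₂ h₂ ∧
    c * pm t x h ≤ ∫ φ in (Real.pi / 2 - δ')..(Real.pi / 2 + δ'), Real.exp (t * h₂ (cexp (x + φ * I))).re

/-- SM: supermultiplicativity. Uses S_dat, S_lip, S_int, S_sub, S_rot. -/
def S_sm : Prop := ∃ A C δ : ℝ, 0 ≤ C ∧ 0 < δ ∧ ∀ ψ h : ℂ → ℂ, IsSig ψ h → ∀ (t : ℂ) (x : ℝ), 0 < x → x < δ →
  ∃ l Φ : ℂ → ℂ, Dat l Φ A ∧ ∀ M : ℕ, 2 ≤ M → ∀ ψ₁ h₁ : ℂ → ℂ, IsSig ψ₁ h₁ →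
    Real.exp (-C - C * ‖t‖ * (1 + Real.sqrt (LR (Real.exp x)))) * pm t (1 / M) h₁ * pm t x h ≤
      pm t (x / M) (TH l Φ A M h₁)

/-- CLOSE: `Σ` is closed -/
def S_close : Prop := ∀ (Ψ Hh : ℕ → ℂ → ℂ) (h : ℂ → ℂ), (∀ n, IsSig (Ψ n) (Hh n)) →
  (∀ R : ℝ, 1 < R → TendstoUniformlyOn Hh h atTop {z : ℂ | R ≤ ‖z‖}) → ∃ ψ : ℂ → ℂ, IsSig ψ h

/-- the iterated transforms of `ψ = id`, `h = 0`, with the exponents `M = m, m², m³, …` -/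
noncomputable def Hs (l Φ : ℂ → ℂ) (A : ℝ) (m : ℕ) : ℕ → ℂ → ℂ
  | 0 => fun _ => 0
  | n + 1 => TH l Φ A (m ^ (n + 1)) (Hs l Φ A m n)

/-- SEQ: the sequence converges, and the limit is close to `Hs n` on the circle `|z| = exp (1 / m^(n+1))`.
Uses S_lip, S_close. -/
def S_seq : Prop := ∀ (l Φ : ℂ → ℂ) (A : ℝ), Dat l Φ A → ∀ m : ℕ, 2 ≤ m → ∃ ψ h : ℂ → ℂ, IsSig ψ h ∧
  ∃ C : ℝ, ∀ (n : ℕ) (z : ℂ), ‖z‖ = Real.exp (1 / (m : ℝ) ^ (n + 1)) → ‖h z - Hs l Φ A m n z‖ ≤ C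

/-- Binder's conjecture (upper bound) for the exponents `|t| ≤ 2`, for every single function -/
def Binder : Prop := ∀ ψ h : ℂ → ℂ, IsSig ψ h → ∀ t : ℂ, ‖t‖ ≤ 2 → ∀ ε : ℝ, 0 < ε → ∃ K R₀ : ℝ, 1 < R₀ ∧
  ∀ R : ℝ, 1 < R → R < R₀ → pmean t R h ≤ K * (R ^ 2 / (R ^ 2 - 1)) ^ (‖t‖ ^ 2 / 4 + ε)

/-- ITER: the uniform bound at the radii `exp (1/m)`. Uses S_sm, S_seq. -/
def S_iter : Prop := Binder → ∃ (C : ℝ) (m₀ : ℕ), 0 ≤ C ∧ 2 ≤ m₀ ∧ ∀ ψ h : ℂ → ℂ, IsSig ψ h → ∀ t : ℂ, ‖t‖ ≤ 2 →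
  ∀ m : ℕ, m₀ ≤ m → pm t (1 / m) h ≤ Real.exp (C + C * ‖t‖ * Real.sqrt (Real.log m)) * (m : ℝ) ^ (‖t‖ ^ 2 / 4)

/-- GOL1: Goluzin's inequality for one point (library: `Pool.Agent.R250.MC.goluzin_ext`) -/
def S_gol1 : Prop := ∀ ψ h : ℂ → ℂ, IsSig ψ h → ∀ z ∈ Ex, ‖h z‖ ≤ LR ‖z‖

/-- the uniform form of Binder's conjecture (library: `Q90.SM.Q2 univ 1`, equivalent to the strong Marshall conjecture) -/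
def Q2 : Prop := ∀ c : ℝ, 1 / 4 < c → ∃ K R₀ : ℝ, 1 < R₀ ∧ ∀ R : ℝ, 1 < R → R < R₀ →
  ∀ ψ h : ℂ → ℂ, IsSig ψ h → ∀ t : ℂ, ‖t‖ < 4 → pmean t R h ≤ K * (R ^ 2 / (R ^ 2 - 1)) ^ (c * ‖t‖ ^ 2)

/-- FIN: the uniform bound for all radii and all `|t| < 4`. Uses S_iter, S_lip, S_gol1. -/
def S_fin : Prop := Binder → Q2

end Pool.Agent.V5helper27.BM
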