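import Pool.Agent.V5helper27.BM.Stm

set_option autoImplicit false

open Complex Filter Topology Set Metric MeasureTheory

namespace Pool.Agent.V5helper27.BM

/-- DAT1: the structure `Dat` for `ψ₂` -/
def S_dat1 : Prop := ∃ A : ℝ, ∀ ψ₂ h₂ : ℂ → ℂ, IsSig ψ₂ h₂ → ∀ G : ℂ → ℂ, DifferentiableOn ℂ G Ex →
  (∀ z ∈ Ex, cexp (G z) * (z - z0) = ψ₂ z - ψ₂ z0) → (∀ z ∈ Ex, ‖G z‖ ≤ Real.sqrt (LR ‖z‖ * LR ‖z0‖)) →
  Dat (fun u => G (kk u) + nn u) (fun u => h₂ (kk u) + sg u) A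

end Pool.Agent.V5helper27.BM
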